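import Mathlib

/-!
# Subsets on which functions are constant, injective, dissociated
-/

set_option autoImplicit false

open Finset

namespace Pool.Agent.H58CV

variable {γ ι : Type*} [DecidableEq γ] [DecidableEq ι]

theorem exists_transversal {κ : Type*} [DecidableEq κ] (J : Finset γ) (f : γ → κ) :
    ∃ J' ⊆ J, Set.InjOn f J' ∧ J'.card = (J.image f).card := by
  classical
  rcases J.eq_empty_or_nonempty with rfl | ⟨j₀, hj₀⟩
  · exact ⟨∅, Subset.refl _, by simp, by simp⟩
  have : Nonempty γ := ⟨j₀⟩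
  have h1 : ∀ y ∈ J.image f, ∃ x ∈ J, f x = y := fun y hy => mem_image.1 hy
  choose! s hs1 hs2 using h1
  refine ⟨(J.image f).image s, ?_, ?_, ?_⟩
  · intro x hx
    obtain ⟨y, hy, rfl⟩ := mem_image.1 hx
    exact hs1 y hy
  · intro x hx x' hx' h
    obtain ⟨y, hy, rfl⟩ := mem_image.1 (mem_coe.1 hx)
    obtain ⟨y', hy', rfl⟩ := mem_image.1 (mem_coe.1 hx')
    rw [hs2 y hy, hs2 y' hy'] at h
    rw [h]
  · refine Finset.card_image_of_injOn fun y hy y' hy' h => ?_
    rw [← hs2 y hy, ← hs2 y' hy', h]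

/-- constant or injective -/
theorem const_or_inj (m : ℕ) (J : Finset γ) (f : γ → ℝ) (h : (m + 1) * (m + 1) ≤ J.card) :
    ∃ J' ⊆ J, m ≤ J'.card ∧ ((∃ c, ∀ i ∈ J', f i = c) ∨ Set.InjOn f J') := by
  classical
  by_cases h1 : m ≤ (J.image f).card
  · obtain ⟨J', hJ', hinj, hc⟩ := exists_transversal J f
    exact ⟨J', hJ', by omega, Or.inr hinj⟩
  · push Not at h1
    by_contra hcon
    push Not at hcon
    have h2 : ∀ y ∈ J.image f, (J.filter fun x => f x = y).card ≤ m := by
      intro y _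
      by_contra h3
      push Not at h3
      have h4 := hcon (J.filter fun x => f x = y) (Finset.filter_subset _ _) (by omega)
      obtain ⟨i, hi, hne⟩ := h4.1 y
      exact hne (mem_filter.1 hi).2
    have h3 := Finset.card_le_mul_card_image (f := f) J m h2
    have h4 : m * (J.image f).card ≤ m * m := Nat.mul_le_mul_left m h1.le
    nlinarith

theorem ramsey (m : ℕ) : ∀ A : ℕ, ∃ M₀ : ℕ, m ≤ M₀ ∧ ∀ {γ ι : Type} [DecidableEq γ] [DecidableEq ι]
    (S : Finset ι) (f : ι → γ → ℝ) (J : Finset γ), S.card ≤ A →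
    M₀ ≤ J.card → ∃ J' ⊆ J, m ≤ J'.card ∧ ∀ g ∈ S, (∃ c, ∀ i ∈ J', f g i = c) ∨ Set.InjOn (f g) J' := by
  classical
  intro A
  induction A with
  | zero =>
    refine ⟨m, le_refl m, fun S f J hS hJ => ⟨J, Subset.refl _, hJ, fun g hg => ?_⟩⟩
    have h1 : S = ∅ := Finset.card_eq_zero.1 (by omega)
    rw [h1] at hg
    simp at hg
  | succ A ih =>
    obtain ⟨M₀, hM₀, h⟩ := ih
    refine ⟨(M₀ + 1) * (M₀ + 1), by nlinarith, fun S f J hS hJ => ?_⟩
    by_cases hSA : S.card ≤ A
    · exact h S f J hSA (by nlinarith)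
    · obtain ⟨g, hg⟩ : S.Nonempty := Finset.card_pos.1 (by omega)
      obtain ⟨J₁, hJ₁, hJ₁c, hJ₁p⟩ := const_or_inj M₀ J (f g) hJ
      obtain ⟨J₂, hJ₂, hJ₂c, hJ₂p⟩ := h (S.erase g) f J₁ (by rw [Finset.card_erase_of_mem hg]; omega) hJ₁c
      refine ⟨J₂, hJ₂.trans hJ₁, hJ₂c, fun g' hg' => ?_⟩
      by_cases hgg : g' = g
      · subst hgg
        rcases hJ₁p with ⟨c, hc⟩ | hi
        · exact Or.inl ⟨c, fun i hi => hc i (hJ₂ hi)⟩
        · exact Or.inr (hi.mono (by exact_mod_cast hJ₂))
      · exact hJ₂p g' (Finset.mem_erase.2 ⟨hgg, hg'⟩)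

/-- no nontrivial relation with coefficients `-1, 0, 1` -/
def Diss (f : γ → ℝ) (J : Finset γ) : Prop :=
  ∀ T ⊆ J, ∀ T' ⊆ J, Disjoint T T' → ∑ i ∈ T, f i = ∑ i ∈ T', f i → T = ∅ ∧ T' = ∅

theorem diss_ex (D : Finset ι) (f : ι → γ → ℝ) (J : Finset γ) (hinj : ∀ g ∈ D, Set.InjOn (f g) J) :
    ∀ m : ℕ, m + D.card * 4 ^ m ≤ J.card → ∃ J' ⊆ J, J'.card = m ∧ ∀ g ∈ D, Diss (f g) J' := by
  classical
  intro m
  induction m with
  | zero =>
    intro _
    refine ⟨∅, Finset.empty_subset _, rfl, fun g _ T hT T' hT' _ _ => ?_⟩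
    exact ⟨Finset.subset_empty.1 hT, Finset.subset_empty.1 hT'⟩
  | succ m ih =>
    intro hm
    have h4 : D.card * 4 ^ m ≤ D.card * 4 ^ (m + 1) :=
      Nat.mul_le_mul_left _ (Nat.pow_le_pow_right (by norm_num) (by omega))
    obtain ⟨J', hJ', hJ'c, hJ'd⟩ := ih (by omega)
    -- the bad values
    set Bv : ι → Finset ℝ := fun g => (J'.powerset ×ˢ J'.powerset).image
      (fun q => ∑ i ∈ q.1, f g i - ∑ i ∈ q.2, f g i) with hBv
    have hBc : ∀ g, (Bv g).card ≤ 4 ^ m := by
      intro g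
      refine Finset.card_image_le.trans ?_
      rw [card_product, card_powerset, hJ'c, ← mul_pow]
      norm_num
    set bad : Finset γ := D.biUnion fun g => J.filter fun j => f g j ∈ Bv g with hbad
    have hbadc : bad.card ≤ D.card * 4 ^ m := by
      refine Finset.card_biUnion_le.trans ?_
      rw [← smul_eq_mul, ← Finset.sum_const]
      refine Finset.sum_le_sum fun g hg => ?_
      refine le_trans ?_ (hBc g)
      rw [← Finset.card_image_of_injOn (s := J.filter fun j => f g j ∈ Bv g) (f := f g)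
        ((hinj g hg).mono (by
          intro x hx
          exact mem_coe.2 (mem_filter.1 (mem_coe.1 hx)).1))]
      refine Finset.card_le_card fun y hy => ?_
      obtain ⟨x, hx, rfl⟩ := mem_image.1 hy
      exact (mem_filter.1 hx).2
    obtain ⟨j, hjJ, hj⟩ : ∃ j ∈ J, j ∉ J' ∪ bad := by
      by_contra hcon
      push Not at hcon
      have h1 := Finset.card_le_card (show J ⊆ J' ∪ bad from hcon)
      have h2 := Finset.card_union_le J' bad
      omega
    rw [mem_union, not_or] at hj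
    refine ⟨insert j J', Finset.insert_subset hjJ hJ', by rw [Finset.card_insert_of_notMem hj.1, hJ'c], ?_⟩
    intro g hg T hT T' hT' hdis hsum
    have hnb : f g j ∉ Bv g := by
      intro h
      exact hj.2 (mem_biUnion.2 ⟨g, hg, mem_filter.2 ⟨hjJ, h⟩⟩)
    have herase : ∀ T : Finset γ, T ⊆ insert j J' → T.erase j ⊆ J' := fun T hT x hx => by
      rw [mem_erase] at hx
      exact (mem_insert.1 (hT hx.2)).resolve_left hx.1
    by_cases hjT : j ∈ T
    · exfalso
      have hjT' : j ∉ T' := fun h => Finset.disjoint_left.1 hdis hjT h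
      apply hnb
      rw [hBv, mem_image]
      refine ⟨(T', T.erase j), ?_, ?_⟩
      · rw [mem_product, mem_powerset, mem_powerset]
        refine ⟨?_, herase T hT⟩
        have := herase T' hT'
        rwa [Finset.erase_eq_of_notMem hjT'] at this
      · rw [← Finset.add_sum_erase T (f g) hjT] at hsum
        simp only
        linarith
    · by_cases hjT' : j ∈ T'
      · exfalso
        apply hnb
        rw [hBv, mem_image]
        refine ⟨(T, T'.erase j), ?_, ?_⟩
        · rw [mem_product, mem_powerset, mem_powerset]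
          refine ⟨?_, herase T' hT'⟩
          have := herase T hT
          rwa [Finset.erase_eq_of_notMem hjT] at this
        · rw [← Finset.add_sum_erase T' (f g) hjT'] at hsum
          simp only
          linarith
      · have e1 := herase T hT
        have e2 := herase T' hT'
        rw [Finset.erase_eq_of_notMem hjT] at e1
        rw [Finset.erase_eq_of_notMem hjT'] at e2
        exact hJ'd g hg T e1 T' e2 hdis hsum

/-- signed sums over different subsets are different -/
theorem Diss.signed {f : γ → ℝ} {J : Finset γ} (h : Diss f J) (σ : γ → ℝ) (hσ : ∀ i, σ i = 1 ∨ σ i = -1)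
    {T T' : Finset γ} (hT : T ⊆ J) (hT' : T' ⊆ J) (hs : ∑ i ∈ T, σ i * f i = ∑ i ∈ T', σ i * f i) : T = T' := by
  classical
  set P := (T \ T').filter (fun i => σ i = 1) ∪ (T' \ T).filter (fun i => σ i ≠ 1) with hP
  set Q := (T \ T').filter (fun i => σ i ≠ 1) ∪ (T' \ T).filter (fun i => σ i = 1) with hQ
  have hd1 : Disjoint (T \ T') (T' \ T) := disjoint_sdiff_sdiff
  have hσ' : ∀ i, σ i ≠ 1 → σ i = -1 := fun i hi => (hσ i).resolve_left hi
  have hPs : ∑ i ∈ P, f i = ∑ i ∈ (T \ T').filter (fun i => σ i = 1), f i +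
      ∑ i ∈ (T' \ T).filter (fun i => σ i ≠ 1), f i :=
    Finset.sum_union (Finset.disjoint_of_subset_left (Finset.filter_subset _ _)
      (Finset.disjoint_of_subset_right (Finset.filter_subset _ _) hd1))
  have hQs : ∑ i ∈ Q, f i = ∑ i ∈ (T \ T').filter (fun i => σ i ≠ 1), f i +
      ∑ i ∈ (T' \ T).filter (fun i => σ i = 1), f i :=
    Finset.sum_union (Finset.disjoint_of_subset_left (Finset.filter_subset _ _)
      (Finset.disjoint_of_subset_right (Finset.filter_subset _ _) hd1))
  have hsplit : ∀ U : Finset γ, ∑ i ∈ U, σ i * f i = ∑ i ∈ U.filter (fun i => σ i = 1), f i -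
      ∑ i ∈ U.filter (fun i => σ i ≠ 1), f i := by
    intro U
    rw [← Finset.sum_filter_add_sum_filter_not U (fun i => σ i = 1)]
    have e1 : ∑ i ∈ U.filter (fun i => σ i = 1), σ i * f i = ∑ i ∈ U.filter (fun i => σ i = 1), f i :=
      Finset.sum_congr rfl fun i hi => by rw [(mem_filter.1 hi).2, one_mul]
    have e2 : ∑ i ∈ U.filter (fun i => ¬ σ i = 1), σ i * f i = -∑ i ∈ U.filter (fun i => σ i ≠ 1), f i := by
      rw [← Finset.sum_neg_distrib]
      exact Finset.sum_congr rfl fun i hi => by rw [hσ' i (mem_filter.1 hi).2, neg_one_mul]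
    rw [e1, e2, sub_eq_add_neg]
  have hdiff : ∑ i ∈ T \ T', σ i * f i = ∑ i ∈ T' \ T, σ i * f i := by
    have e2 := Finset.sum_inter_add_sum_sdiff T T' (fun i => σ i * f i)
    have e3 := Finset.sum_inter_add_sum_sdiff T' T (fun i => σ i * f i)
    rw [Finset.inter_comm] at e3
    linarith
  have hPQ : ∑ i ∈ P, f i = ∑ i ∈ Q, f i := by
    rw [hPs, hQs]
    rw [hsplit, hsplit] at hdiff
    linarith
  have hPJ : P ⊆ J := by
    intro i hi
    rw [hP, mem_union, mem_filter, mem_filter, mem_sdiff, mem_sdiff] at hi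
    rcases hi with hi | hi
    · exact hT hi.1.1
    · exact hT' hi.1.1
  have hQJ : Q ⊆ J := by
    intro i hi
    rw [hQ, mem_union, mem_filter, mem_filter, mem_sdiff, mem_sdiff] at hi
    rcases hi with hi | hi
    · exact hT hi.1.1
    · exact hT' hi.1.1
  have hdPQ : Disjoint P Q := by
    rw [Finset.disjoint_left]
    intro i hi hi'
    rw [hP, mem_union, mem_filter, mem_filter, mem_sdiff, mem_sdiff] at hi
    rw [hQ, mem_union, mem_filter, mem_filter, mem_sdiff, mem_sdiff] at hi'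
    tauto
  obtain ⟨h1, h2⟩ := h P hPJ Q hQJ hdPQ hPQ
  have hall : ∀ i, i ∉ P ∧ i ∉ Q := fun i => by
    rw [h1, h2]
    exact ⟨Finset.notMem_empty i, Finset.notMem_empty i⟩
  ext i
  have h3 := hall i
  rw [hP, hQ, mem_union, mem_union, mem_filter, mem_filter, mem_filter, mem_filter, mem_sdiff, mem_sdiff] at h3
  tauto

end Pool.Agent.H58CV
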