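import Pool.Agent.Helper58.CV.Main

/-!
# Almost `k`-covers with private members on a large set of coordinates

`Big`: `J` is a large set of coordinates with private members `R j`; every other member is zero on `J` (`E`),
constant and nonzero on `J` (`C`) or dissociated on `J` (`D`).
-/

set_option autoImplicit false

open Finset Polynomial

namespace Pool.Agent.H58CV

/-- The data: an almost cover with private members on `J`. -/
structure Big (n k : ℕ) (ι : Type) [Fintype ι] [DecidableEq ι] where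
  /-- coefficients -/
  b : ι → Fin n → ℝ
  cov : ∀ x : Fin n → ℝ, (∀ i, x i = 0 ∨ x i = 1) → x ≠ 0 → k ≤ (univ.filter fun g => lf b g x = 1).card
  /-- the coordinates -/
  J : Finset (Fin n)
  /-- private members -/
  R : Fin n → ι
  inj : Set.InjOn R J
  R1 : ∀ j ∈ J, b (R j) j ≠ 0
  R2 : ∀ j ∈ J, ∀ i ∈ J, i ≠ j → b (R j) i = 0
  /-- members not depending on `J` -/
  E : Finset ι
  /-- members with a constant nonzero coefficient on `J` -/
  C : Finset ι
  /-- members with dissociated coefficients on `J` -/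
  D : Finset ι
  part : ∀ g, g ∈ J.image R ∨ g ∈ E ∨ g ∈ C ∨ g ∈ D
  disjRE : Disjoint (J.image R) E
  disjRC : Disjoint (J.image R) C
  disjRD : Disjoint (J.image R) D
  disjEC : Disjoint E C
  disjED : Disjoint E D
  disjCD : Disjoint C D
  /-- the coefficient on `J` -/
  α : ι → ℝ
  hα : ∀ g ∈ C, ∀ i ∈ J, b g i = α g
  hα0 : ∀ g ∈ C, α g ≠ 0
  hE : ∀ g ∈ E, ∀ i ∈ J, b g i = 0
  hD : ∀ g ∈ D, ∀ σ : Fin n → ℝ, (∀ i, σ i = 1 ∨ σ i = -1) → ∀ T ⊆ J, ∀ T' ⊆ J,
    ∑ i ∈ T, σ i * b g i = ∑ i ∈ T', σ i * b g i → T = T'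

/-- switch the coordinates in `T` -/
def sw {n : ℕ} (x : Fin n → ℝ) (T : Finset (Fin n)) : Fin n → ℝ := fun i => if i ∈ T then 1 - x i else x i

theorem lf_sw {n : ℕ} {ι : Type*} (b : ι → Fin n → ℝ) (g : ι) (x : Fin n → ℝ) (T : Finset (Fin n)) :
    lf b g (sw x T) = lf b g x + ∑ i ∈ T, (1 - 2 * x i) * b g i := by
  unfold lf
  have h1 : ∑ i ∈ T, (1 - 2 * x i) * b g i = ∑ i, if i ∈ T then (1 - 2 * x i) * b g i else 0 := by
    rw [Finset.sum_ite_mem, Finset.univ_inter]
  rw [h1, ← Finset.sum_add_distrib]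
  refine Finset.sum_congr rfl fun i _ => ?_
  unfold sw
  by_cases hi : i ∈ T
  · simp only [if_pos hi]
    ring
  · simp only [if_neg hi]
    ring

theorem sw_cube {n : ℕ} {x : Fin n → ℝ} (hx : ∀ i, x i = 0 ∨ x i = 1) (T : Finset (Fin n)) :
    ∀ i, sw x T i = 0 ∨ sw x T i = 1 := by
  intro i
  unfold sw
  by_cases hi : i ∈ T
  · simp only [if_pos hi]
    rcases hx i with h | h <;> rw [h] <;> norm_num
  · simp only [if_neg hi]
    exact hx i

theorem sign_cube {n : ℕ} {x : Fin n → ℝ} (hx : ∀ i, x i = 0 ∨ x i = 1) :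
    ∀ i, (1 - 2 * x i : ℝ) = 1 ∨ (1 - 2 * x i : ℝ) = -1 := by
  intro i
  rcases hx i with h | h <;> rw [h] <;> norm_num

theorem choose_ge {m t : ℕ} (ht : 1 ≤ t) (htm : t + 1 ≤ m) : m ≤ m.choose t := by
  induction m with
  | zero => omega
  | succ m ih =>
    obtain ⟨s, rfl⟩ : ∃ s, t = s + 1 := ⟨t - 1, by omega⟩
    rw [Nat.choose_succ_succ']
    by_cases h : s + 1 + 1 ≤ m
    · have h1 := ih h
      have h2 : 1 ≤ m.choose s := Nat.choose_pos (by omega)
      omega
    · have h3 : m = s + 1 := by omega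
      subst h3
      rw [Nat.choose_self, Nat.choose_succ_self_right]

namespace Big

variable {n k : ℕ} {ι : Type} [Fintype ι] [DecidableEq ι] (P : Big n k ι)

/-- the private members containing `x` -/
noncomputable def V (x : Fin n → ℝ) : Finset (Fin n) := P.J.filter fun j => lf P.b (P.R j) x = 1

/-- constant members at the level `l` -/
noncomputable def cs (x : Fin n → ℝ) (l : ℝ) : Finset ι := P.C.filter fun g => lf P.b g x + P.α g * l = 1

/-- dissociated members containing `x` with `T` switched -/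
noncomputable def ds (x : Fin n → ℝ) (T : Finset (Fin n)) : Finset ι :=
  P.D.filter fun g => lf P.b g x + ∑ i ∈ T, (1 - 2 * x i) * P.b g i = 1

theorem card_eq : Fintype.card ι = P.J.card + P.E.card + P.C.card + P.D.card := by
  have h1 : (univ : Finset ι) = ((P.J.image P.R ∪ P.E) ∪ P.C) ∪ P.D := by
    ext g
    simp only [mem_univ, mem_union, true_iff]
    rcases P.part g with h | h | h | h
    · exact Or.inl (Or.inl (Or.inl h))
    · exact Or.inl (Or.inl (Or.inr h))
    · exact Or.inl (Or.inr h)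
    · exact Or.inr h
  rw [← Finset.card_univ, h1, Finset.card_union_of_disjoint, Finset.card_union_of_disjoint,
    Finset.card_union_of_disjoint P.disjRE, Finset.card_image_of_injOn P.inj]
  · rw [Finset.disjoint_union_left]
    exact ⟨P.disjRC, P.disjEC⟩
  · rw [Finset.disjoint_union_left, Finset.disjoint_union_left]
    exact ⟨⟨P.disjRD, P.disjED⟩, P.disjCD⟩

theorem lf_zero {b : ι → Fin n → ℝ} (g : ι) : lf b g 0 = 0 := by simp [lf]

theorem key {x : Fin n → ℝ} (hx : ∀ i, x i = 0 ∨ x i = 1) {T : Finset (Fin n)} (hT : T ⊆ P.J)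
    (hne : sw x T ≠ 0) (hE : ∀ g ∈ P.E, lf P.b g x ≠ 1) :
    k ≤ (P.cs x (∑ i ∈ T, (1 - 2 * x i))).card + (P.ds x T).card + (symmDiff T (P.V x)).card := by
  classical
  have h1 := P.cov (sw x T) (sw_cube hx T) hne
  refine h1.trans ?_
  have hsub : (univ.filter fun g => lf P.b g (sw x T) = 1) ⊆
      (P.cs x (∑ i ∈ T, (1 - 2 * x i)) ∪ P.ds x T) ∪ (symmDiff T (P.V x)).image P.R := by
    intro g hg
    rw [mem_filter] at hg
    have hg1 := hg.2
    rw [lf_sw] at hg1
    rw [mem_union, mem_union]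
    rcases P.part g with h | h | h | h
    · right
      obtain ⟨j, hj, rfl⟩ := mem_image.1 h
      refine mem_image.2 ⟨j, ?_, rfl⟩
      rw [mem_symmDiff]
      by_cases hjT : j ∈ T
      · left
        refine ⟨hjT, fun hjV => ?_⟩
        unfold V at hjV
        rw [mem_filter] at hjV
        have h2 : ∑ i ∈ T, (1 - 2 * x i) * P.b (P.R j) i = (1 - 2 * x j) * P.b (P.R j) j := by
          refine Finset.sum_eq_single_of_mem j hjT fun i hi hij => ?_
          rw [P.R2 j hj i (hT hi) hij, mul_zero]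
        rw [hjV.2, h2] at hg1
        have h3 : (1 - 2 * x j) * P.b (P.R j) j = 0 := by linarith
        rcases mul_eq_zero.1 h3 with h4 | h4
        · rcases sign_cube hx j with h5 | h5 <;> rw [h4] at h5 <;> norm_num at h5
        · exact P.R1 j hj h4
      · right
        refine ⟨?_, hjT⟩
        unfold V
        rw [mem_filter]
        refine ⟨hj, ?_⟩
        have h2 : ∑ i ∈ T, (1 - 2 * x i) * P.b (P.R j) i = 0 := by
          refine Finset.sum_eq_zero fun i hi => ?_
          rw [P.R2 j hj i (hT hi) (by rintro rfl; exact hjT hi), mul_zero]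
        rw [h2, add_zero] at hg1
        exact hg1
    · exfalso
      have h2 : ∑ i ∈ T, (1 - 2 * x i) * P.b g i = 0 :=
        Finset.sum_eq_zero fun i hi => by rw [P.hE g h i (hT hi), mul_zero]
      rw [h2, add_zero] at hg1
      exact hE g h hg1
    · left
      left
      unfold cs
      rw [mem_filter]
      refine ⟨h, ?_⟩
      have h2 : ∑ i ∈ T, (1 - 2 * x i) * P.b g i = P.α g * ∑ i ∈ T, (1 - 2 * x i) := by
        rw [Finset.mul_sum]
        refine Finset.sum_congr rfl fun i hi => ?_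
        rw [P.hα g h i (hT hi)]
        ring
      rw [← h2]
      exact hg1
    · left
      right
      unfold ds
      rw [mem_filter]
      exact ⟨h, hg1⟩
  calc (univ.filter fun g => lf P.b g (sw x T) = 1).card ≤ _ := Finset.card_le_card hsub
    _ ≤ _ := Finset.card_union_le _ _
    _ ≤ _ := Nat.add_le_add (Finset.card_union_le _ _) Finset.card_image_le

/-- levels are disjoint -/
theorem sum_cs (x : Fin n → ℝ) (L : Finset ℝ) : ∑ l ∈ L, (P.cs x l).card ≤ P.C.card := by
  rw [← Finset.card_biUnion]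
  · refine Finset.card_le_card fun g hg => ?_
    obtain ⟨t, -, h⟩ := Finset.mem_biUnion.1 hg
    exact (Finset.mem_filter.1 h).1
  · intro t _ t' _ hne
    rw [Function.onFun, Finset.disjoint_left]
    intro g hg hg'
    have e1 := (Finset.mem_filter.1 hg).2
    have e2 := (Finset.mem_filter.1 hg').2
    have h0 := P.hα0 g (Finset.mem_filter.1 hg).1
    have h3 : P.α g * (t - t') = 0 := by linarith
    rcases mul_eq_zero.1 h3 with h4 | h4
    · exact h0 h4
    · exact hne (by linarith)

/-- dissociated members contain at most one switched point -/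
theorem sum_ds {x : Fin n → ℝ} (hx : ∀ i, x i = 0 ∨ x i = 1) (L : Finset (Finset (Fin n)))
    (hL : ∀ T ∈ L, T ⊆ P.J) : ∑ T ∈ L, (P.ds x T).card ≤ P.D.card := by
  rw [← Finset.card_biUnion]
  · refine Finset.card_le_card fun g hg => ?_
    obtain ⟨t, -, h⟩ := Finset.mem_biUnion.1 hg
    exact (Finset.mem_filter.1 h).1
  · intro t ht t' ht' hne
    rw [Function.onFun, Finset.disjoint_left]
    intro g hg hg'
    have e1 := (Finset.mem_filter.1 hg).2
    have e2 := (Finset.mem_filter.1 hg').2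
    exact hne (P.hD g (Finset.mem_filter.1 hg).1 (fun i => 1 - 2 * x i) (sign_cube hx) t (hL t ht) t' (hL t' ht')
      (by linarith))

/-- Among many subsets there is one which no dissociated member reaches. -/
theorem exists_free {x : Fin n → ℝ} (hx : ∀ i, x i = 0 ∨ x i = 1) {Z : Finset (Fin n)} (hZ : Z ⊆ P.J) {t : ℕ}
    (h : P.D.card < (powersetCard t Z).card) : ∃ T ⊆ Z, T.card = t ∧ (P.ds x T).card = 0 := by
  by_contra hcon
  push Not at hcon
  have h1 : ∑ T ∈ powersetCard t Z, 1 ≤ ∑ T ∈ powersetCard t Z, (P.ds x T).card := by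
    refine Finset.sum_le_sum fun T hT => ?_
    rw [mem_powersetCard] at hT
    exact Nat.one_le_iff_ne_zero.2 (hcon T hT.1 hT.2)
  have h2 := P.sum_ds hx (powersetCard t Z) (fun T hT => (mem_powersetCard.1 hT).1.trans hZ)
  rw [Finset.sum_const, smul_eq_mul, mul_one] at h1
  omega

theorem V_zero : P.V 0 = ∅ := by
  unfold V
  rw [Finset.filter_eq_empty_iff]
  intro j _
  rw [lf_zero]
  exact zero_ne_one

/-- the level of a set of zeros -/
theorem lev_zero {x : Fin n → ℝ} {T : Finset (Fin n)} (h : ∀ i ∈ T, x i = 0) :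
    ∑ i ∈ T, (1 - 2 * x i) = (T.card : ℝ) := by
  rw [Finset.sum_congr rfl fun i hi => by rw [h i hi]]
  simp

theorem lev_one {x : Fin n → ℝ} {T : Finset (Fin n)} (h : ∀ i ∈ T, x i = 1) :
    ∑ i ∈ T, (1 - 2 * x i) = -(T.card : ℝ) := by
  rw [Finset.sum_congr rfl fun i hi => by rw [h i hi]]
  simp
  ring

theorem sw_ne_zeros {x : Fin n → ℝ} (hx0 : x ≠ 0) {T : Finset (Fin n)} (h : ∀ i ∈ T, x i = 0) : sw x T ≠ 0 := by
  intro h0
  apply hx0
  funext i
  by_cases hi : i ∈ T
  · exact h i hi
  · have := congrFun h0 i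
    unfold sw at this
    simpa [hi] using this

theorem sw_ne_mem {x : Fin n → ℝ} {T : Finset (Fin n)} {i : Fin n} (hi : i ∉ T) (h : x i = 1) : sw x T ≠ 0 := by
  intro h0
  have := congrFun h0 i
  unfold sw at this
  simp [hi, h] at this

theorem symm_empty (T : Finset (Fin n)) : (symmDiff T (∅ : Finset (Fin n))).card = T.card := by
  rw [← Finset.bot_eq_empty, symmDiff_bot]

/-- the levels at the origin -/
theorem levels_zero (hm : P.D.card + k < P.J.card) {t : ℕ} (ht1 : 1 ≤ t) (htk : t ≤ k) :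
    k - t ≤ (P.cs 0 t).card := by
  have h01 : ∀ i : Fin n, (0 : Fin n → ℝ) i = 0 ∨ (0 : Fin n → ℝ) i = 1 := fun i => Or.inl rfl
  obtain ⟨T, hT, hTc, hT0⟩ := P.exists_free h01 (Subset.refl P.J) (t := t) (by
    rw [card_powersetCard]
    have h1 := choose_ge ht1 (show t + 1 ≤ P.J.card by omega)
    omega)
  have hTn : T.Nonempty := by
    rw [← Finset.card_pos, hTc]
    exact ht1
  obtain ⟨i, hi⟩ := hTn
  have h := P.key h01 hT (by
    intro h0
    have := congrFun h0 i
    unfold sw at this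
    simp [hi] at this) (fun g _ => by rw [lf_zero]; exact zero_ne_one)
  rw [P.V_zero, symm_empty, lev_zero (x := 0) (fun i _ => rfl), hTc, hT0] at h
  omega

end Big

end Pool.Agent.H58CV
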