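import Mathlib

/-!
# Polynomial identities on sums of distinct vectors
-/

set_option autoImplicit false

open Finset

namespace Pool.Agent.H58CV

/-- The relations among the functions `w q` on `J`. -/
def Nul {β γ : Type*} [Fintype β] (w : β → γ → ℝ) (J : Finset γ) : Submodule ℝ (β → ℝ) where
  carrier := {c | ∀ j ∈ J, ∑ q, c q * w q j = 0}
  add_mem' := by
    intro a b ha hb j hj
    have h1 := ha j hj
    have h2 := hb j hj
    simp only [Pi.add_apply, add_mul, Finset.sum_add_distrib]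
    rw [h1, h2, add_zero]
  zero_mem' := by
    intro j _
    simp
  smul_mem' := by
    intro r a ha j hj
    have h1 := ha j hj
    simp only [Pi.smul_apply, smul_eq_mul, mul_assoc]
    rw [← Finset.mul_sum, h1, mul_zero]

theorem mem_Nul {β γ : Type*} [Fintype β] {w : β → γ → ℝ} {J : Finset γ} {c : β → ℝ} :
    c ∈ Nul w J ↔ ∀ j ∈ J, ∑ q, c q * w q j = 0 := Iff.rfl

theorem Nul_anti {β γ : Type*} [Fintype β] {w : β → γ → ℝ} {J J' : Finset γ} (h : J ⊆ J') :
    Nul w J' ≤ Nul w J := fun _ hc j hj => hc j (h hj)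

theorem robust {β γ : Type*} [Fintype β] [DecidableEq γ] (w : β → γ → ℝ) (K : ℕ) : ∀ (d : ℕ) (J : Finset γ),
    Fintype.card β ≤ Module.finrank ℝ (Nul w J) + d →
      ∃ J₁ ⊆ J, J.card ≤ J₁.card + K * d ∧ ∀ R ⊆ J₁, R.card ≤ K → Nul w (J₁ \ R) ≤ Nul w J₁ := by
  intro d
  induction d with
  | zero =>
    intro J hJ
    refine ⟨J, Subset.refl _, by omega, fun R _ _ => ?_⟩
    have h1 : Nul w J = ⊤ := by
      apply Submodule.eq_top_of_finrank_eq
      rw [Module.finrank_fintype_fun_eq_card]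
      refine le_antisymm ?_ (by simpa using hJ)
      have := Submodule.finrank_le (Nul w J)
      rwa [Module.finrank_fintype_fun_eq_card] at this
    rw [h1]
    exact le_top
  | succ d ih =>
    intro J hJ
    by_cases hrob : ∀ R ⊆ J, R.card ≤ K → Nul w (J \ R) ≤ Nul w J
    · exact ⟨J, Subset.refl _, by omega, hrob⟩
    · push Not at hrob
      obtain ⟨R, hRJ, hRK, hR⟩ := hrob
      have hlt : Nul w J < Nul w (J \ R) :=
        lt_of_le_not_ge (Nul_anti Finset.sdiff_subset) hR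
      have h1 := Submodule.finrank_lt_finrank_of_lt hlt
      obtain ⟨J₁, hJ₁, hc, hr⟩ := ih (J \ R) (by omega)
      refine ⟨J₁, hJ₁.trans Finset.sdiff_subset, ?_, hr⟩
      have h2 := Finset.card_sdiff_add_card_eq_card hRJ
      rw [Nat.mul_succ]
      omega

theorem diag {β γ δ : Type*} [Fintype β] [DecidableEq γ] (w : β → γ → ℝ) (Y : γ → δ → ℝ) (g : (δ → ℝ) → ℝ)
    (hg : ∀ c : δ → ℝ, ∃ a : β → ℝ, ∀ j, g (Y j + c) = ∑ q, a q * w q j) {J₁ : Finset γ} {K : ℕ}
    (hrob : ∀ R ⊆ J₁, R.card ≤ K → Nul w (J₁ \ R) ≤ Nul w J₁)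
    (h0 : ∀ T ⊆ J₁, T.card = K → g (∑ i ∈ T, Y i) = 0) :
    ∀ j ∈ J₁, g ((K : ℝ) • Y j) = 0 := by
  intro j hj
  have key : ∀ a : ℕ, ∀ T ⊆ J₁, T.card + a = K → g (∑ i ∈ T, Y i + (a : ℝ) • Y j) = 0 := by
    intro a
    induction a with
    | zero =>
      intro T hT hTc
      have h1 := h0 T hT (by omega)
      simpa using h1
    | succ a ih =>
      intro T hT hTc
      obtain ⟨c, hc⟩ := hg (∑ i ∈ T, Y i + (a : ℝ) • Y j)
      have h1 : c ∈ Nul w (J₁ \ T) := by
        rw [mem_Nul]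
        intro i hi
        rw [mem_sdiff] at hi
        rw [← hc]
        have h2 := ih (insert i T) (Finset.insert_subset hi.1 hT) (by
          rw [Finset.card_insert_of_notMem hi.2]
          omega)
        rw [Finset.sum_insert hi.2, add_assoc] at h2
        exact h2
      have h3 := mem_Nul.1 (hrob T hT (by omega) h1) j hj
      rw [← hc] at h3
      have h4 : Y j + (∑ i ∈ T, Y i + (a : ℝ) • Y j) = ∑ i ∈ T, Y i + ((a + 1 : ℕ) : ℝ) • Y j := by
        push_cast
        rw [add_smul, one_smul]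
        abel
      rwa [h4] at h3
  have h5 := key K ∅ (Finset.empty_subset _) (by simp)
  simpa using h5

end Pool.Agent.H58CV
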