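import Pool.Agent.Helper58.CV.Fin
import Pool.Agent.Helper58.CV.Robust

/-!
# The lower bound for covers with private members on a large set of coordinates
-/

set_option autoImplicit false

open Finset Polynomial

namespace Pool.Agent.H58CV

/-- The coefficients of `A ∏ (y_g + X)` are multi-affine functions of `y`. -/
theorem expand {ι γ : Type*} [DecidableEq ι] (D : Finset ι) (A : ℝ[X]) (l : ℕ) (κ : ℝ) (Y : γ → ι → ℝ)
    (c : ι → ℝ) : ∃ a : {q // q ∈ D.powerset} → ℝ, ∀ j,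
      (A * ∏ g ∈ D, (C ((Y j + c) g / κ) + X)).coeff l = ∑ q, a q * ∏ g ∈ q.1, Y j g := by
  refine ⟨fun q => (κ⁻¹) ^ q.1.card * (A * ∏ g ∈ D \ q.1, (C (c g / κ) + X)).coeff l, fun j => ?_⟩
  have h1 : ∏ g ∈ D, (C ((Y j + c) g / κ) + X : ℝ[X]) = ∏ g ∈ D, (C (Y j g / κ) + (C (c g / κ) + X)) := by
    refine Finset.prod_congr rfl fun g _ => ?_
    rw [Pi.add_apply, add_div, C_add, add_assoc]
  rw [h1, Finset.prod_add, Finset.mul_sum, finset_sum_coeff]
  rw [← Finset.sum_coe_sort D.powerset]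
  refine Finset.sum_congr rfl fun q _ => ?_
  have h2 : ∏ g ∈ q.1, C (Y j g / κ) = C (κ⁻¹ ^ q.1.card * ∏ g ∈ q.1, Y j g) := by
    rw [← Finset.prod_const, ← Finset.prod_mul_distrib, map_prod]
    refine Finset.prod_congr rfl fun g _ => ?_
    rw [div_eq_inv_mul]
  rw [h2, mul_left_comm, coeff_C_mul]
  ring

theorem gp_inv {ι : Type*} (D : Finset ι) {y : ι → ℝ} (h : ∀ g ∈ D, y g ≠ 0) :
    ∏ g ∈ D, (C (y g) + X) = C (∏ g ∈ D, y g) * gp D (fun g => 1 / y g) := by
  unfold gp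
  rw [map_prod, ← Finset.prod_mul_distrib]
  refine Finset.prod_congr rfl fun g hg => ?_
  rw [mul_add, mul_one, ← mul_assoc, ← C_mul, mul_one_div_cancel (h g hg), C_1, one_mul]

namespace Big

variable {n k : ℕ} {ι : Type} [Fintype ι] [DecidableEq ι] (P : Big n k ι)

theorem main (hk : 3 ≤ k) (hm : 2 * P.D.card + k + 1 < P.J.card) (hm2 : k * 2 ^ P.D.card < P.J.card)
    (hcond : P.D.card + 3 ≤ k ∨ P.C.card + P.D.card + 5 ≤ k ^ 2 + k) : n + k.choose 2 ≤ Fintype.card ι := by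
  classical
  have hcard := P.card_eq
  obtain ⟨K, hK⟩ : ∃ K, k = K + 2 := ⟨k - 2, by omega⟩
  have hJn : P.J.card ≤ n := by
    have := Finset.card_le_univ P.J
    rwa [Fintype.card_fin] at this
  -- the structure at the origin
  obtain ⟨G₀, hG₀, hG₀c, hG₀p⟩ := split_off (Ico 1 k) k P.C (fun g => 1 / P.α g) (by
    intro t ht
    rw [mem_Ico] at ht
    refine (P.levels_zero (by omega) ht.1 (by omega)).trans (Finset.card_le_card fun g hg => ?_)
    unfold cs at hg
    rw [mem_filter] at hg ⊢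
    refine ⟨hg.1, ?_⟩
    rw [div_eq_iff (P.hα0 g hg.1)]
    have h1 := hg.2
    rw [lf_zero] at h1
    linarith)
  have hsum : ∑ t ∈ range k, (k - t) = k + ∑ t ∈ Ico 1 k, (k - t) := by
    have h1 := Finset.sum_eq_sum_Ico_succ_bot (show 0 < k by omega) (fun t : ℕ => k - t)
    rw [Finset.range_eq_Ico, h1]
    simp
  have hch := sum_choose k
  have hch2 : (k + 1).choose 2 = k + k.choose 2 := by
    rw [Nat.choose_succ_succ' k 1, Nat.choose_one_right]
  obtain ⟨J₀, hJ₀, hJ₀c⟩ := Finset.exists_subset_card_eq (show K + 1 ≤ P.J.card by omega)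
  by_cases hA : ∀ x : Fin n → ℝ, (∀ i, x i = 0 ∨ x i = 1) → (∀ i ∈ J₀, x i = 0) → x ≠ 0 →
      P.F (P.J \ J₀) x = 0
  · have h1 := af (P.F_deg (P.J \ J₀)) J₀ᶜ (by rw [P.F_zero]; exact one_ne_zero) (fun x hx hxJ hx0 =>
      hA x hx (fun i hi => hxJ i (by rw [mem_compl, not_not]; exact hi)) hx0)
    have h2 := Finset.card_sdiff_add_card_eq_card hJ₀
    rw [Finset.card_compl, Fintype.card_fin] at h1
    omega
  push Not at hA
  obtain ⟨x₁, hx₁, hx₁J, hx₁0, hx₁F⟩ := hA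
  have hB := P.CD_large hJ₀ (by omega) hx₁ hx₁J hx₁0 hx₁F
  obtain ⟨r, hr⟩ : ∃ r, P.C.card + P.D.card = (k + 1).choose 2 + r :=
    ⟨P.C.card + P.D.card - (k + 1).choose 2, by omega⟩
  -- the generating polynomial at the origin
  have hgp : ∀ J' ⊆ P.J, J'.Nonempty → gp (P.C ∪ P.D) (P.ψ J' 0) =
      nodes (range k) k * (gp G₀ (fun g => 1 / P.α g) * gp P.D (fun g => 1 / P.al J' g)) := by
    intro J' hJ' hne
    rw [gp_union P.disjCD, ← mul_assoc, ← nodes_Ico k (by omega), ← hG₀p]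
    congr 1
    · refine gp_congr fun g hg => ?_
      unfold ψ
      rw [lf_zero, sub_zero, P.al_C hJ' hne hg]
    · refine gp_congr fun g hg => ?_
      unfold ψ
      rw [lf_zero, sub_zero]
  by_cases ha : ∃ J' ⊆ P.J, J'.card = K + 1 ∧
      (gp G₀ (fun g => 1 / P.α g) * gp P.D (fun g => 1 / P.al J' g)).coeff (r + 1) ≠ 0
  · obtain ⟨J', hJ', hJ'c, hc⟩ := ha
    have hne : J'.Nonempty := Finset.card_pos.1 (by omega)
    have h1 := P.degree hJ' hne (by omega) (by omega) hm hcond (j := r + 1) (by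
      rw [show J'.card + 1 = k by omega]
      omega) (by
      rw [show J'.card + 1 = k by omega]
      exact hgp J' hJ' hne) hc
    omega
  by_cases hb : ∃ J' ⊆ P.J, J'.card = K ∧
      ((1 + Polynomial.C ((K + 1 : ℕ) : ℝ) * X) * (gp G₀ (fun g => 1 / P.α g) * gp P.D (fun g => 1 / P.al J' g))).coeff
        (r + 2) ≠ 0
  · obtain ⟨J', hJ', hJ'c, hc⟩ := hb
    have hne : J'.Nonempty := Finset.card_pos.1 (by omega)
    have hsum2 : ∑ t ∈ range k, (k - t) = ∑ t ∈ range (K + 1), (k - t) + 1 := by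
      conv_lhs => rw [hK]
      rw [Finset.sum_range_succ]
      congr 1
      · rw [← hK]
      · omega
    have h1 := P.degree hJ' hne (by omega) (by omega) hm hcond (j := r + 2) (by
      rw [hJ'c]
      omega) (Q := (1 + Polynomial.C ((K + 1 : ℕ) : ℝ) * X) *
        (gp G₀ (fun g => 1 / P.α g) * gp P.D (fun g => 1 / P.al J' g))) (by
      have h4 := nodes_succ (K + 1)
      rw [show K + 1 + 1 = k by omega] at h4
      rw [hJ'c, hgp J' hJ' hne, h4, mul_assoc]) hc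
    omega
  exfalso
  push Not at ha hb
  -- the diagonal argument
  set Y : Fin n → ι → ℝ := fun j g => P.b g j with hY
  set w : {q // q ∈ P.D.powerset} → Fin n → ℝ := fun q j => ∏ g ∈ q.1, Y j g with hw
  obtain ⟨J₁, hJ₁, hJ₁c, hrob⟩ := robust w (K + 1) (2 ^ P.D.card) P.J (by
    rw [Fintype.card_coe, card_powerset]
    omega)
  have hJ₁pos : 0 < J₁.card := by
    have h1 : (K + 1) * 2 ^ P.D.card ≤ k * 2 ^ P.D.card := Nat.mul_le_mul_right _ (by omega)
    omega
  obtain ⟨j, hj⟩ := Finset.card_pos.1 hJ₁pos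
  have hal : ∀ T : Finset (Fin n), ∀ g, (∑ i ∈ T, Y i) g / (T.card : ℝ) = P.al T g := by
    intro T g
    unfold al
    rw [Finset.sum_apply]
  have e1 := diag w Y (fun v => (gp G₀ (fun g => 1 / P.α g) *
      ∏ g ∈ P.D, (Polynomial.C (v g / ((K + 1 : ℕ) : ℝ)) + X)).coeff (r + 1))
    (fun c => expand P.D _ _ _ Y c) (J₁ := J₁) (K := K + 1) hrob (by
      intro T hT hTc
      have hne : T.Nonempty := Finset.card_pos.1 (by omega)
      have h1 := ha T (hT.trans hJ₁) hTc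
      have h2 : ∏ g ∈ P.D, (Polynomial.C ((∑ i ∈ T, Y i) g / ((K + 1 : ℕ) : ℝ)) + X : ℝ[X]) =
          ∏ g ∈ P.D, (Polynomial.C (P.al T g) + X) := by
        refine Finset.prod_congr rfl fun g _ => ?_
        rw [← hTc, hal]
      show (_ * ∏ g ∈ P.D, (Polynomial.C ((∑ i ∈ T, Y i) g / ((K + 1 : ℕ) : ℝ)) + X)).coeff _ = 0
      rw [h2, gp_inv P.D (fun g hg => P.al_ne (hT.trans hJ₁) hne (mem_union_right _ hg)), mul_left_comm,
        coeff_C_mul, h1, mul_zero]) j hj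
  have e2 := diag w Y (fun v => (((1 + Polynomial.C ((K + 1 : ℕ) : ℝ) * X) * gp G₀ (fun g => 1 / P.α g)) *
      ∏ g ∈ P.D, (Polynomial.C (v g / (K : ℝ)) + X)).coeff (r + 2))
    (fun c => expand P.D _ _ _ Y c) (J₁ := J₁) (K := K) (fun R hR hRc => hrob R hR (by omega)) (by
      intro T hT hTc
      have hne : T.Nonempty := Finset.card_pos.1 (by omega)
      have h1 := hb T (hT.trans hJ₁) hTc
      have h2 : ∏ g ∈ P.D, (Polynomial.C ((∑ i ∈ T, Y i) g / (K : ℝ)) + X : ℝ[X]) =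
          ∏ g ∈ P.D, (Polynomial.C (P.al T g) + X) := by
        refine Finset.prod_congr rfl fun g _ => ?_
        rw [← hTc, hal]
      show (_ * ∏ g ∈ P.D, (Polynomial.C ((∑ i ∈ T, Y i) g / (K : ℝ)) + X)).coeff _ = 0
      rw [h2, gp_inv P.D (fun g hg => P.al_ne (hT.trans hJ₁) hne (mem_union_right _ hg)), mul_left_comm,
        coeff_C_mul, mul_assoc, h1, mul_zero]) j hj
  have hjJ := hJ₁ hj
  have hbj : ∀ g ∈ P.D, P.b g j ≠ 0 := by
    intro g hg
    have h1 := P.sum_D_ne (J' := {j}) (by simpa using hjJ) (by simp) hg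
    simpa using h1
  have hK0 : ((K : ℕ) : ℝ) ≠ 0 := by
    have : K ≠ 0 := by omega
    exact_mod_cast this
  have hK1 : ((K + 1 : ℕ) : ℝ) ≠ 0 := by
    exact_mod_cast Nat.succ_ne_zero K
  have h3 : ∏ g ∈ P.D, (Polynomial.C ((((K + 1 : ℕ) : ℝ) • Y j) g / ((K + 1 : ℕ) : ℝ)) + X : ℝ[X]) =
      ∏ g ∈ P.D, (Polynomial.C (P.b g j) + X) := by
    refine Finset.prod_congr rfl fun g _ => ?_
    rw [Pi.smul_apply, smul_eq_mul, mul_div_cancel_left₀ _ hK1]
  have h4 : ∏ g ∈ P.D, (Polynomial.C (((K : ℝ) • Y j) g / (K : ℝ)) + X : ℝ[X]) =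
      ∏ g ∈ P.D, (Polynomial.C (P.b g j) + X) := by
    refine Finset.prod_congr rfl fun g _ => ?_
    rw [Pi.smul_apply, smul_eq_mul, mul_div_cancel_left₀ _ hK0]
  simp only [h3] at e1
  simp only [h4] at e2
  rw [gp_inv P.D hbj, mul_left_comm, coeff_C_mul] at e1
  rw [gp_inv P.D hbj, mul_left_comm, coeff_C_mul, mul_assoc, lin_coeff_succ] at e2
  have hprod : ∏ g ∈ P.D, P.b g j ≠ 0 := Finset.prod_ne_zero_iff.2 hbj
  have e1' := (mul_eq_zero.1 e1).resolve_left hprod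
  have e2' := (mul_eq_zero.1 e2).resolve_left hprod
  rw [e1', mul_zero, add_zero] at e2'
  -- the contradiction
  have hdis : Disjoint G₀ P.D := Finset.disjoint_of_subset_left hG₀ P.disjCD
  set τ : ι → ℝ := fun g => if g ∈ P.D then 1 / P.b g j else 1 / P.α g with hτ
  have h5 : gp (G₀ ∪ P.D) τ = gp G₀ (fun g => 1 / P.α g) * gp P.D (fun g => 1 / P.b g j) := by
    rw [gp_union hdis]
    congr 1
    · refine gp_congr fun g hg => ?_
      rw [hτ]
      simp only
      rw [if_neg (Finset.disjoint_left.1 hdis hg)]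
    · refine gp_congr fun g hg => ?_
      rw [hτ]
      simp only
      rw [if_pos hg]
  rw [← h5] at e1' e2'
  refine gp_consecutive (G₀ ∪ P.D) (ψ := τ) ?_ ?_ e1' e2'
  · intro g hg
    rw [hτ]
    simp only
    by_cases hgD : g ∈ P.D
    · rw [if_pos hgD]
      exact one_div_ne_zero (hbj g hgD)
    · rw [if_neg hgD]
      exact one_div_ne_zero (P.hα0 g (hG₀ ((mem_union.1 hg).resolve_right hgD)))
  · rw [Finset.card_union_of_disjoint hdis]
    omega

end Big

end Pool.Agent.H58CV
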