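import Pool.Agent.Helper58.CV.Nodes

/-!
# Almost `k`-covers with private members on `k - 1` coordinates

Theorem `core`: let `J` be a set of `k - 1` coordinates and `R j`, `j ∈ J`, distinct members of an almost `k`-cover,
`R j` having a nonzero coefficient at `j` and zero at the other coordinates in `J`; let every other member have
one common coefficient on `J`. Then the cover has at least `n + C(k, 2)` members.
-/

set_option autoImplicit false

open Finset Polynomial

namespace Pool.Agent.H58CV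

/-- The value of the linear form. -/
def lf {n : ℕ} {ι : Type*} (b : ι → Fin n → ℝ) (g : ι) (x : Fin n → ℝ) : ℝ := ∑ i, b g i * x i

/-- The data: an almost cover with private members on `J`. -/
structure Priv (n k : ℕ) (ι : Type) [Fintype ι] [DecidableEq ι] where
  /-- coefficients -/
  b : ι → Fin n → ℝ
  cov : ∀ x : Fin n → ℝ, (∀ i, x i = 0 ∨ x i = 1) → x ≠ 0 → k ≤ (univ.filter fun g => lf b g x = 1).card
  /-- the coordinates -/
  J : Finset (Fin n)
  /-- private members -/
  R : Fin n → ι
  inj : Set.InjOn R J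
  R1 : ∀ j ∈ J, b (R j) j ≠ 0
  R2 : ∀ j ∈ J, ∀ i ∈ J, i ≠ j → b (R j) i = 0
  /-- members not depending on `J` -/
  E : Finset ι
  /-- members with a constant nonzero coefficient on `J` -/
  B : Finset ι
  part : ∀ g, g ∈ J.image R ∨ g ∈ E ∨ g ∈ B
  disjE : Disjoint (J.image R) E
  disjB : Disjoint (J.image R) B
  disjEB : Disjoint E B
  /-- the coefficient on `J` -/
  α : ι → ℝ
  hα : ∀ g ∈ B, ∀ i ∈ J, b g i = α g
  hα0 : ∀ g ∈ B, α g ≠ 0
  hE : ∀ g ∈ E, ∀ i ∈ J, b g i = 0

namespace Priv

variable {n k : ℕ} {ι : Type} [Fintype ι] [DecidableEq ι] (P : Priv n k ι)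

/-- the number of coordinates in `J` needed for `g ∈ B` -/
noncomputable def ψ (x : Fin n → ℝ) (g : ι) : ℝ := (1 - lf P.b g x) / P.α g

/-- the private members containing `x` -/
noncomputable def V (x : Fin n → ℝ) : Finset (Fin n) := P.J.filter fun j => lf P.b (P.R j) x = 1

theorem card_eq : Fintype.card ι = P.J.card + P.E.card + P.B.card := by
  have h1 : (univ : Finset ι) = (P.J.image P.R ∪ P.E) ∪ P.B := by
    ext g
    simp only [mem_univ, mem_union, true_iff]
    rcases P.part g with h | h | h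
    · exact Or.inl (Or.inl h)
    · exact Or.inl (Or.inr h)
    · exact Or.inr h
  rw [← Finset.card_univ, h1, Finset.card_union_of_disjoint, Finset.card_union_of_disjoint P.disjE,
    Finset.card_image_of_injOn P.inj]
  rw [Finset.disjoint_union_left]
  exact ⟨P.disjB, P.disjEB⟩

theorem lf_zero {b : ι → Fin n → ℝ} (g : ι) : lf b g 0 = 0 := by simp [lf]

/-- switching on the coordinates in `T` -/
theorem lf_add {b : ι → Fin n → ℝ} (g : ι) {x : Fin n → ℝ} {T : Finset (Fin n)} (h : ∀ i ∈ T, x i = 0) :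
    lf b g (fun i => if i ∈ T then 1 else x i) = lf b g x + ∑ i ∈ T, b g i := by
  unfold lf
  have h1 : ∑ i ∈ T, b g i = ∑ i, if i ∈ T then b g i else 0 := by
    rw [Finset.sum_ite_mem, Finset.univ_inter]
  rw [h1, ← Finset.sum_add_distrib]
  refine Finset.sum_congr rfl fun i _ => ?_
  by_cases hi : i ∈ T
  · simp only [if_pos hi, h i hi]
    ring
  · simp only [if_neg hi]
    ring

/-- Lemma C -/
theorem key {x : Fin n → ℝ} (hx : ∀ i, x i = 0 ∨ x i = 1) {T : Finset (Fin n)} (hT : T ⊆ P.J)
    (hxT : ∀ i ∈ T, x i = 0) (hne : x ≠ 0 ∨ T.Nonempty) (hE : ∀ g ∈ P.E, lf P.b g x ≠ 1) :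
    k ≤ (P.B.filter fun g => P.ψ x g = T.card).card + (symmDiff T (P.V x)).card := by
  classical
  set y : Fin n → ℝ := fun i => if i ∈ T then 1 else x i with hy
  have hy01 : ∀ i, y i = 0 ∨ y i = 1 := by
    intro i
    rw [hy]
    by_cases hi : i ∈ T
    · simp [hi]
    · simp only [if_neg hi]
      exact hx i
  have hy0 : y ≠ 0 := by
    rcases hne with h | ⟨i, hi⟩
    · intro h0
      apply h
      funext i
      by_cases hi : i ∈ T
      · exact hxT i hi
      · have := congrFun h0 i
        rw [hy] at this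
        simpa [hi] using this
    · intro h0
      have := congrFun h0 i
      rw [hy] at this
      simp [hi] at this
  have h1 := P.cov y hy01 hy0
  refine h1.trans ?_
  have hsub : (univ.filter fun g => lf P.b g y = 1) ⊆
      (P.B.filter fun g => P.ψ x g = T.card) ∪ (symmDiff T (P.V x)).image P.R := by
    intro g hg
    rw [mem_filter] at hg
    have hg1 := hg.2
    rw [hy, lf_add g hxT] at hg1
    rw [mem_union]
    rcases P.part g with h | h | h
    · right
      obtain ⟨j, hj, rfl⟩ := mem_image.1 h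
      refine mem_image.2 ⟨j, ?_, rfl⟩
      rw [mem_symmDiff]
      by_cases hjT : j ∈ T
      · left
        refine ⟨hjT, fun hjV => ?_⟩
        unfold V at hjV
        rw [mem_filter] at hjV
        have h2 : ∑ i ∈ T, P.b (P.R j) i = P.b (P.R j) j := by
          refine Finset.sum_eq_single_of_mem j hjT fun i hi hij => ?_
          exact P.R2 j hj i (hT hi) hij
        rw [hjV.2, h2] at hg1
        exact P.R1 j hj (by linarith)
      · right
        refine ⟨?_, hjT⟩
        unfold V
        rw [mem_filter]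
        refine ⟨hj, ?_⟩
        have h2 : ∑ i ∈ T, P.b (P.R j) i = 0 := by
          refine Finset.sum_eq_zero fun i hi => P.R2 j hj i (hT hi) ?_
          rintro rfl
          exact hjT hi
        rw [h2, add_zero] at hg1
        exact hg1
    · exfalso
      have h2 : ∑ i ∈ T, P.b g i = 0 := Finset.sum_eq_zero fun i hi => P.hE g h i (hT hi)
      rw [h2, add_zero] at hg1
      exact hE g h hg1
    · left
      rw [mem_filter]
      refine ⟨h, ?_⟩
      have h2 : ∑ i ∈ T, P.b g i = T.card * P.α g := by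
        rw [Finset.sum_congr rfl fun i hi => P.hα g h i (hT hi), Finset.sum_const, nsmul_eq_mul]
      unfold ψ
      rw [div_eq_iff (P.hα0 g h)]
      linarith
  calc (univ.filter fun g => lf P.b g y = 1).card ≤ _ := Finset.card_le_card hsub
    _ ≤ _ := Finset.card_union_le _ _
    _ ≤ _ := Nat.add_le_add_left Finset.card_image_le _

theorem V_zero : P.V 0 = ∅ := by
  unfold V
  rw [Finset.filter_eq_empty_iff]
  intro j _
  rw [lf_zero]
  exact zero_ne_one

/-- Lemma C for `V x = ∅`, for all sizes -/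
theorem key0 {x : Fin n → ℝ} (hx : ∀ i, x i = 0 ∨ x i = 1) {J' : Finset (Fin n)} (hJ' : J' ⊆ P.J)
    (hxJ : ∀ i ∈ J', x i = 0) (hE : ∀ g ∈ P.E, lf P.b g x ≠ 1) (hV : P.V x = ∅) {t : ℕ}
    (ht : t ≤ J'.card) (hne : x ≠ 0 ∨ 1 ≤ t) :
    k - t ≤ (P.B.filter fun g => P.ψ x g = t).card := by
  obtain ⟨T, hT, hTc⟩ := Finset.exists_subset_card_eq ht
  have h := P.key hx (hT.trans hJ') (fun i hi => hxJ i (hT hi)) (by
    rcases hne with h | h
    · exact Or.inl h
    · right
      rw [← Finset.card_pos, hTc]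
      exact h) hE
  rw [hV, hTc] at h
  have h2 : (symmDiff T (∅ : Finset (Fin n))).card = t := by
    rw [← Finset.bot_eq_empty, symmDiff_bot, hTc]
  rw [h2] at h
  omega

/-- the product over the members not depending on `J` -/
noncomputable def F (x : Fin n → ℝ) : ℝ := ∏ g ∈ P.E, (1 - lf P.b g x)

theorem F_deg : Deg P.E.card P.F := by
  refine Deg.prod _ fun g _ => ?_
  have h1 := (Deg.lin (P.b g)).affine (-1) 1
  have h2 : (fun x : Fin n → ℝ => 1 + -1 * ∑ i, P.b g i * x i) = fun x => 1 - lf P.b g x := by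
    funext x
    unfold lf
    ring
  rwa [h2] at h1

theorem F_zero : P.F 0 = 1 := by
  unfold F
  refine Finset.prod_eq_one fun g _ => ?_
  rw [lf_zero, sub_zero]

theorem F_ne {x : Fin n → ℝ} (h : P.F x ≠ 0) : ∀ g ∈ P.E, lf P.b g x ≠ 1 := by
  intro g hg h1
  apply h
  unfold F
  refine Finset.prod_eq_zero hg ?_
  rw [h1, sub_self]

/-- the product over the private members -/
noncomputable def F' (x : Fin n → ℝ) : ℝ := ∏ j ∈ P.J, (1 - lf P.b (P.R j) x)

theorem F'_deg : Deg P.J.card P.F' := by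
  refine Deg.prod _ fun j _ => ?_
  have h1 := (Deg.lin (P.b (P.R j))).affine (-1) 1
  have h2 : (fun x : Fin n → ℝ => 1 + -1 * ∑ i, P.b (P.R j) i * x i) = fun x => 1 - lf P.b (P.R j) x := by
    funext x
    unfold lf
    ring
  rwa [h2] at h1

theorem F'_zero : P.F' 0 = 1 := by
  unfold F'
  refine Finset.prod_eq_one fun g _ => ?_
  rw [lf_zero, sub_zero]

theorem F'_ne {x : Fin n → ℝ} (h : P.F' x ≠ 0) : P.V x = ∅ := by
  unfold V
  rw [Finset.filter_eq_empty_iff]
  intro j hj h1
  apply h
  unfold F'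
  refine Finset.prod_eq_zero hj ?_
  rw [h1, sub_self]

theorem ψ_deg (g : ι) : Deg 1 fun x => P.ψ x g := by
  have h1 := (Deg.lin (P.b g)).affine (-(P.α g)⁻¹) (P.α g)⁻¹
  have h2 : (fun x : Fin n → ℝ => (P.α g)⁻¹ + -(P.α g)⁻¹ * ∑ i, P.b g i * x i) = fun x => P.ψ x g := by
    funext x
    unfold ψ lf
    rw [div_eq_mul_inv]
    ring
  rwa [h2] at h1

/-- the truncated quotient by the node polynomial -/
noncomputable def e (h : ℕ → ℝ) (j : ℕ) (x : Fin n → ℝ) : ℝ :=
  ∑ a ∈ antidiagonal j, (gp P.B (P.ψ x)).coeff a.1 * h a.2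

theorem e_deg (h : ℕ → ℝ) (j : ℕ) : Deg j (P.e h j) := by
  refine Deg.sum _ fun a ha => ?_
  have h1 := (gp_deg P.B P.ψ (fun g _ => P.ψ_deg g) a.1).mul (Deg.const (n := n) (h a.2))
  rw [add_zero] at h1
  have h2 := mem_antidiagonal.1 ha
  exact h1.mono (by omega)

end Priv

end Pool.Agent.H58CV
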