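import Mathlib

/-!
# Polynomial functions on the cube of bounded degree
-/

set_option autoImplicit false

open Finset

namespace Pool.Agent.H58CV

variable {n : ℕ}

/-- Polynomial functions of degree at most `d`. -/
def Deg (d : ℕ) (f : (Fin n → ℝ) → ℝ) : Prop :=
  ∃ p : MvPolynomial (Fin n) ℝ, p.totalDegree ≤ d ∧ ∀ x, f x = MvPolynomial.eval x p

theorem Deg.mono {d e : ℕ} (h : d ≤ e) {f : (Fin n → ℝ) → ℝ} (hf : Deg d f) : Deg e f := by
  obtain ⟨p, hp, hpe⟩ := hf
  exact ⟨p, hp.trans h, hpe⟩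

theorem Deg.const (c : ℝ) : Deg 0 (fun _ : Fin n → ℝ => c) :=
  ⟨MvPolynomial.C c, by simp, fun x => by simp⟩

theorem Deg.add {d : ℕ} {f g : (Fin n → ℝ) → ℝ} (hf : Deg d f) (hg : Deg d g) :
    Deg d (fun x => f x + g x) := by
  obtain ⟨p, hp, hpe⟩ := hf
  obtain ⟨q, hq, hqe⟩ := hg
  exact ⟨p + q, (MvPolynomial.totalDegree_add p q).trans (max_le hp hq), fun x => by
    rw [map_add, ← hpe, ← hqe]⟩

theorem Deg.mul {d e : ℕ} {f g : (Fin n → ℝ) → ℝ} (hf : Deg d f) (hg : Deg e g) :
    Deg (d + e) (fun x => f x * g x) := by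
  obtain ⟨p, hp, hpe⟩ := hf
  obtain ⟨q, hq, hqe⟩ := hg
  exact ⟨p * q, (MvPolynomial.totalDegree_mul p q).trans (add_le_add hp hq), fun x => by
    rw [map_mul, ← hpe, ← hqe]⟩

theorem Deg.sum {ι : Type*} {d : ℕ} (s : Finset ι) {f : ι → (Fin n → ℝ) → ℝ}
    (h : ∀ i ∈ s, Deg d (f i)) : Deg d (fun x => ∑ i ∈ s, f i x) := by
  classical
  induction s using Finset.induction_on with
  | empty => simpa using (Deg.const (n := n) 0).mono (Nat.zero_le d)
  | insert a s ha ih =>
    simp only [Finset.sum_insert ha]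
    exact (h a (Finset.mem_insert_self a s)).add (ih fun i hi => h i (Finset.mem_insert_of_mem hi))

theorem Deg.prod {ι : Type*} (s : Finset ι) {f : ι → (Fin n → ℝ) → ℝ}
    (h : ∀ i ∈ s, Deg 1 (f i)) : Deg s.card (fun x => ∏ i ∈ s, f i x) := by
  classical
  induction s using Finset.induction_on with
  | empty => simpa using Deg.const (n := n) 1
  | insert a s ha ih =>
    simp only [Finset.prod_insert ha]
    rw [Finset.card_insert_of_notMem ha, add_comm]
    exact (h a (Finset.mem_insert_self a s)).mul (ih fun i hi => h i (Finset.mem_insert_of_mem hi))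

theorem Deg.coord (i : Fin n) : Deg 1 (fun x : Fin n → ℝ => x i) :=
  ⟨MvPolynomial.X i, by simp, fun x => by simp⟩

theorem Deg.lin (b : Fin n → ℝ) : Deg 1 (fun x => ∑ i, b i * x i) := by
  refine Deg.sum _ fun i _ => ?_
  have h := (Deg.const (n := n) (b i)).mul (Deg.coord i)
  rwa [zero_add] at h

theorem Deg.affine {d : ℕ} {f : (Fin n → ℝ) → ℝ} (hf : Deg d f) (a c : ℝ) :
    Deg d (fun x => c + a * f x) := by
  have h := (Deg.const (n := n) a).mul hf
  rw [zero_add] at h
  exact ((Deg.const c).mono (Nat.zero_le d)).add h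

/-- The alternating sum over the cube of a polynomial of degree less than `n` vanishes. -/
theorem altsum {d : ℕ} (hd : d < n) {f : (Fin n → ℝ) → ℝ} (hf : Deg d f) :
    ∑ x ∈ Fintype.piFinset (fun _ : Fin n => ({0, 1} : Finset ℝ)),
      (∏ i, (1 - 2 * x i)) * f x = 0 := by
  obtain ⟨p, hp, hpe⟩ := hf
  simp only [hpe, MvPolynomial.eval_eq, Finset.mul_sum]
  rw [Finset.sum_comm]
  refine Finset.sum_eq_zero fun m hm => ?_
  have hdeg : m.degree < n := lt_of_le_of_lt (MvPolynomial.le_totalDegree hm) (lt_of_le_of_lt hp hd)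
  obtain ⟨i, hi⟩ : ∃ i, m i = 0 := by
    by_contra hcon
    push Not at hcon
    have h1 : n ≤ m.degree := by
      rw [Finsupp.degree_eq_sum]
      calc n = ∑ _i : Fin n, 1 := by simp
        _ ≤ ∑ i : Fin n, m i := Finset.sum_le_sum fun i _ => Nat.one_le_iff_ne_zero.2 (hcon i)
    omega
  have h2 : ∀ x : Fin n → ℝ, (∏ i, (1 - 2 * x i)) * (MvPolynomial.coeff m p *
      ∏ i ∈ m.support, x i ^ m i) = MvPolynomial.coeff m p * ∏ i, ((1 - 2 * x i) * x i ^ m i) := by
    intro x
    have h3 : ∏ i ∈ m.support, x i ^ m i = ∏ i, x i ^ m i := by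
      refine Finset.prod_subset (Finset.subset_univ _) fun i _ hi => ?_
      rw [Finsupp.notMem_support_iff.1 hi, pow_zero]
    rw [h3, Finset.prod_mul_distrib]
    ring
  simp only [h2]
  rw [← Finset.mul_sum, ← Finset.prod_univ_sum (fun _ : Fin n => ({0, 1} : Finset ℝ))
    (fun i a => (1 - 2 * a) * a ^ m i)]
  rw [Finset.prod_eq_zero (Finset.mem_univ i), mul_zero]
  rw [Finset.sum_pair (by norm_num), hi]
  norm_num

/-- A polynomial which vanishes on a subcube except at the origin has at least the degree of the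
dimension. -/
theorem af {d : ℕ} {f : (Fin n → ℝ) → ℝ} (hf : Deg d f) (W : Finset (Fin n)) (h0 : f 0 ≠ 0)
    (h : ∀ x : Fin n → ℝ, (∀ i, x i = 0 ∨ x i = 1) → (∀ i, i ∉ W → x i = 0) → x ≠ 0 → f x = 0) :
    W.card ≤ d := by
  by_contra hlt
  push Not at hlt
  have h1 : Deg (d + Wᶜ.card) (fun x : Fin n → ℝ => f x * ∏ i ∈ Wᶜ, (1 - x i)) := by
    refine hf.mul (Deg.prod _ fun i _ => ?_)
    have h2 := (Deg.coord i).affine (-1) 1
    have h3 : (fun x : Fin n → ℝ => 1 + -1 * x i) = fun x => 1 - x i := by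
      funext x
      ring
    rwa [h3] at h2
  have hcard : d + Wᶜ.card < n := by
    have h4 := Finset.card_add_card_compl W
    rw [Fintype.card_fin] at h4
    omega
  have h5 := altsum hcard h1
  have hmem : (0 : Fin n → ℝ) ∈ Fintype.piFinset (fun _ : Fin n => ({0, 1} : Finset ℝ)) := by
    rw [Fintype.mem_piFinset]
    intro i
    simp
  rw [Finset.sum_eq_single_of_mem 0 hmem] at h5
  · apply h0
    simpa using h5
  · intro x hx hx0
    rw [Fintype.mem_piFinset] at hx
    have hx' : ∀ i, x i = 0 ∨ x i = 1 := fun i => by simpa using hx i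
    by_cases hW : ∀ i, i ∉ W → x i = 0
    · rw [h x hx' hW hx0]
      ring
    · push Not at hW
      obtain ⟨i, hi, hxi⟩ := hW
      have h6 : ∏ i ∈ Wᶜ, (1 - x i) = 0 := by
        refine Finset.prod_eq_zero (Finset.mem_compl.2 hi) ?_
        rw [(hx' i).resolve_left hxi]
        ring
      rw [h6]
      ring

end Pool.Agent.H58CV
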