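import Pool.Agent.Helper58.CV.Lev

/-!
# The polynomials
-/

set_option autoImplicit false

open Finset Polynomial

namespace Pool.Agent.H58CV

theorem gp_union {ι : Type*} [DecidableEq ι] {G H : Finset ι} (h : Disjoint G H) (ψ : ι → ℝ) :
    gp (G ∪ H) ψ = gp G ψ * gp H ψ := by
  unfold gp
  rw [Finset.prod_union h]

theorem gp_congr {ι : Type*} {G : Finset ι} {ψ ψ' : ι → ℝ} (h : ∀ g ∈ G, ψ g = ψ' g) : gp G ψ = gp G ψ' := by
  unfold gp
  exact Finset.prod_congr rfl fun g hg => by rw [h g hg]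

namespace Big

variable {n k : ℕ} {ι : Type} [Fintype ι] [DecidableEq ι] (P : Big n k ι)

/-- the average coefficient on `J'` -/
noncomputable def al (J' : Finset (Fin n)) (g : ι) : ℝ := (∑ i ∈ J', P.b g i) / J'.card

/-- the level -/
noncomputable def ψ (J' : Finset (Fin n)) (x : Fin n → ℝ) (g : ι) : ℝ := (1 - lf P.b g x) / P.al J' g

theorem al_C {J' : Finset (Fin n)} (hJ' : J' ⊆ P.J) (hne : J'.Nonempty) {g : ι} (hg : g ∈ P.C) :
    P.al J' g = P.α g := by
  unfold al
  rw [Finset.sum_congr rfl fun i hi => P.hα g hg i (hJ' hi), Finset.sum_const, nsmul_eq_mul]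
  have : (J'.card : ℝ) ≠ 0 := by
    have := Finset.card_pos.2 hne
    positivity
  field_simp

theorem sum_D_ne {J' : Finset (Fin n)} (hJ' : J' ⊆ P.J) (hne : J'.Nonempty) {g : ι} (hg : g ∈ P.D) :
    ∑ i ∈ J', P.b g i ≠ 0 := by
  intro h
  have h1 := P.hD g hg (fun _ => 1) (fun _ => Or.inl rfl) J' hJ' ∅ (Finset.empty_subset _) (by simpa using h)
  exact hne.ne_empty h1

theorem al_ne {J' : Finset (Fin n)} (hJ' : J' ⊆ P.J) (hne : J'.Nonempty) {g : ι} (hg : g ∈ P.C ∪ P.D) :
    P.al J' g ≠ 0 := by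
  rcases mem_union.1 hg with h | h
  · rw [P.al_C hJ' hne h]
    exact P.hα0 g h
  · unfold al
    refine div_ne_zero (P.sum_D_ne hJ' hne h) ?_
    have := Finset.card_pos.2 hne
    positivity

/-- the product over the members which are not constant or dissociated -/
noncomputable def F (S : Finset (Fin n)) (x : Fin n → ℝ) : ℝ :=
  (∏ g ∈ P.E, (1 - lf P.b g x)) * ∏ j ∈ S, (1 - lf P.b (P.R j) x)

theorem one_sub_deg {b : ι → Fin n → ℝ} (g : ι) : Deg 1 fun x => 1 - lf b g x := by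
  have h1 := (Deg.lin (b g)).affine (-1) 1
  have h2 : (fun x : Fin n → ℝ => 1 + -1 * ∑ i, b g i * x i) = fun x => 1 - lf b g x := by
    funext x
    unfold lf
    ring
  rwa [h2] at h1

theorem F_deg (S : Finset (Fin n)) : Deg (P.E.card + S.card) (P.F S) :=
  (Deg.prod _ fun g _ => one_sub_deg g).mul (Deg.prod _ fun j _ => one_sub_deg (P.R j))

theorem F_zero (S : Finset (Fin n)) : P.F S 0 = 1 := by
  unfold F
  rw [Finset.prod_eq_one fun g _ => by rw [lf_zero, sub_zero],
    Finset.prod_eq_one fun g _ => by rw [lf_zero, sub_zero], one_mul]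

theorem F_E {S : Finset (Fin n)} {x : Fin n → ℝ} (h : P.F S x ≠ 0) : ∀ g ∈ P.E, lf P.b g x ≠ 1 := by
  intro g hg h1
  apply h
  unfold F
  rw [Finset.prod_eq_zero hg (by rw [h1, sub_self]), zero_mul]

theorem F_S {S : Finset (Fin n)} {x : Fin n → ℝ} (h : P.F S x ≠ 0) : ∀ j ∈ S, lf P.b (P.R j) x ≠ 1 := by
  intro j hj h1
  apply h
  unfold F
  rw [Finset.prod_eq_zero hj (by rw [h1, sub_self]), mul_zero]

theorem F_V {x : Fin n → ℝ} (h : P.F P.J x ≠ 0) : P.V x = ∅ := by
  unfold V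
  rw [Finset.filter_eq_empty_iff]
  exact fun j hj => P.F_S h j hj

theorem ψ_deg (J' : Finset (Fin n)) (g : ι) : Deg 1 fun x => P.ψ J' x g := by
  have h1 := (Deg.lin (P.b g)).affine (-(P.al J' g)⁻¹) (P.al J' g)⁻¹
  have h2 : (fun x : Fin n → ℝ => (P.al J' g)⁻¹ + -(P.al J' g)⁻¹ * ∑ i, P.b g i * x i) =
      fun x => P.ψ J' x g := by
    funext x
    unfold ψ lf
    rw [div_eq_mul_inv]
    ring
  rwa [h2] at h1

/-- the truncated quotient by the node polynomial -/
noncomputable def e (J' : Finset (Fin n)) (h : ℕ → ℝ) (j : ℕ) (x : Fin n → ℝ) : ℝ :=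
  ∑ a ∈ antidiagonal j, (gp (P.C ∪ P.D) (P.ψ J' x)).coeff a.1 * h a.2

theorem e_deg (J' : Finset (Fin n)) (h : ℕ → ℝ) (j : ℕ) : Deg j (P.e J' h j) := by
  refine Deg.sum _ fun a ha => ?_
  have h1 := (gp_deg (P.C ∪ P.D) (P.ψ J') (fun g _ => P.ψ_deg J' g) a.1).mul (Deg.const (n := n) (h a.2))
  rw [add_zero] at h1
  have h2 := mem_antidiagonal.1 ha
  exact h1.mono (by omega)

/-- all levels -/
theorem levels {x : Fin n → ℝ} (hx : ∀ i, x i = 0 ∨ x i = 1) (hx0 : x ≠ 0) {J' : Finset (Fin n)}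
    (hJ' : J' ⊆ P.J) (hne : J'.Nonempty) (hxJ : ∀ i ∈ J', x i = 0) (hF : P.F P.J x ≠ 0)
    (hJk : k ≤ J'.card + 2) (hJk' : J'.card + 1 ≤ k)
    (hm : 2 * P.D.card + k + 1 < P.J.card)
    (hcond : P.D.card + 3 ≤ k ∨ P.C.card + P.D.card + 5 ≤ k ^ 2 + k) {t : ℕ} (ht : t ≤ J'.card) :
    k - t ≤ ((P.C ∪ P.D).filter fun g => P.ψ J' x g = t).card := by
  classical
  have hV := P.F_V hF
  have hE := P.F_E hF
  have hψ : ∀ g ∈ P.C ∪ P.D, ∀ t : ℝ, (P.ψ J' x g = t ↔ lf P.b g x + P.al J' g * t = 1) := by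
    intro g hg t
    have h0 := P.al_ne hJ' hne hg
    unfold ψ
    rw [div_eq_iff h0]
    constructor <;> intro h <;> linarith
  have hcs : ∀ t : ℝ, P.cs x t ⊆ (P.C ∪ P.D).filter fun g => P.ψ J' x g = t := by
    intro t g hg
    unfold cs at hg
    rw [mem_filter] at hg ⊢
    have hgm : g ∈ P.C ∪ P.D := mem_union_left _ hg.1
    refine ⟨hgm, ?_⟩
    rw [hψ g hgm, P.al_C hJ' hne hg.1]
    exact hg.2
  -- the extreme levels
  have hext : ∀ T ⊆ J', (T = ∅ ∨ T = J') →
      k - T.card ≤ ((P.C ∪ P.D).filter fun g => P.ψ J' x g = (T.card : ℝ)).card := by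
    intro T hT hT'
    have hTz : ∀ i ∈ T, x i = 0 := fun i hi => hxJ i (hT hi)
    have h := P.key hx (hT.trans hJ') (sw_ne_zeros hx0 hTz) hE
    rw [hV, symm_empty, lev_zero hTz] at h
    have hds : P.ds x T ⊆ (P.C ∪ P.D).filter fun g => P.ψ J' x g = (T.card : ℝ) := by
      intro g hg
      unfold ds at hg
      rw [mem_filter] at hg ⊢
      have hgm : g ∈ P.C ∪ P.D := mem_union_right _ hg.1
      refine ⟨hgm, ?_⟩
      rw [hψ g hgm]
      have h1 : ∑ i ∈ T, (1 - 2 * x i) * P.b g i = ∑ i ∈ T, P.b g i :=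
        Finset.sum_congr rfl fun i hi => by rw [hTz i hi]; ring
      rw [h1] at hg
      rcases hT' with rfl | rfl
      · simpa using hg.2
      · unfold al
        have h2 : ((T.card : ℕ) : ℝ) ≠ 0 := by
          have := Finset.card_pos.2 hne
          positivity
        rw [div_mul_cancel₀ _ h2]
        exact hg.2
    have hdis : Disjoint (P.cs x (T.card : ℝ)) (P.ds x T) := by
      refine Finset.disjoint_of_subset_left (Finset.filter_subset _ _)
        (Finset.disjoint_of_subset_right (Finset.filter_subset _ _) P.disjCD)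
    have h3 := Finset.card_le_card (Finset.union_subset (hcs (T.card : ℝ)) hds)
    rw [Finset.card_union_of_disjoint hdis] at h3
    omega
  rcases Nat.eq_zero_or_pos t with h0 | h0
  · subst h0
    have := hext ∅ (Finset.empty_subset _) (Or.inl rfl)
    simpa using this
  · by_cases h1 : t = J'.card
    · subst h1
      exact hext J' (Subset.refl _) (Or.inr rfl)
    · exact (P.unspoiled hx hx0 hJ' hxJ hE hV hJk hJk' hm hcond h0 (by omega)).trans
        (Finset.card_le_card (hcs _))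

/-- If some nonzero point off `J'` is not covered by `E` and the private members outside `J'`, then there are many
constant and dissociated members. -/
theorem CD_large {J' : Finset (Fin n)} (hJ' : J' ⊆ P.J) (hk : J'.card + 1 = k) {x : Fin n → ℝ}
    (hx : ∀ i, x i = 0 ∨ x i = 1) (hxJ : ∀ i ∈ J', x i = 0) (hx0 : x ≠ 0) (hF : P.F (P.J \ J') x ≠ 0) :
    (k + 1).choose 2 ≤ P.C.card + P.D.card := by
  classical
  have hE := P.F_E hF
  have hVJ : P.V x ⊆ J' := by
    intro j hj
    unfold V at hj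
    rw [mem_filter] at hj
    by_contra hjJ
    exact P.F_S hF j (mem_sdiff.2 ⟨hj.1, hjJ⟩) hj.2
  have ha : (P.V x).card ≤ J'.card := Finset.card_le_card hVJ
  set a := (P.V x).card with hadef
  have h1 : ∀ t ∈ range k, k - ((t - a) + (a - t)) ≤ (P.cs x (t : ℝ)).card + P.dd x J' t := by
    intro t ht
    rw [mem_range] at ht
    by_cases hta : t ≤ a
    · obtain ⟨T, hT, hTc⟩ := Finset.exists_subset_card_eq (hta : t ≤ (P.V x).card)
      have hTJ := hT.trans hVJ
      have hTz : ∀ i ∈ T, x i = 0 := fun i hi => hxJ i (hTJ hi)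
      have h := P.key hx (hTJ.trans hJ') (sw_ne_zeros hx0 hTz) hE
      have h3 := P.le_dd (x := x) hTJ
      have h2 : symmDiff T (P.V x) = P.V x \ T := by
        rw [symmDiff_def, Finset.sup_eq_union, Finset.sdiff_eq_empty_iff_subset.2 hT, Finset.empty_union]
      rw [h2, Finset.card_sdiff_of_subset hT, lev_zero hTz, hTc] at h
      rw [hTc] at h3
      omega
    · push Not at hta
      obtain ⟨T, hVT, hTJ, hTc⟩ := Finset.exists_subsuperset_card_eq hVJ (n := t) hta.le (by omega)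
      have hTz : ∀ i ∈ T, x i = 0 := fun i hi => hxJ i (hTJ hi)
      have h := P.key hx (hTJ.trans hJ') (sw_ne_zeros hx0 hTz) hE
      have h3 := P.le_dd (x := x) hTJ
      have h2 : symmDiff T (P.V x) = T \ P.V x := by
        rw [symmDiff_def, Finset.sup_eq_union, Finset.sdiff_eq_empty_iff_subset.2 hVT, Finset.union_empty]
      rw [h2, Finset.card_sdiff_of_subset hVT, lev_zero hTz, hTc] at h
      rw [hTc] at h3
      omega
  have h2 := Finset.sum_le_sum h1
  rw [Finset.sum_add_distrib] at h2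
  have h3 := P.sum_levels x 0 k
  rw [Finset.range_zero, Finset.sum_empty, zero_add] at h3
  have h4 := P.sum_dd hx hJ'
  rw [hk] at h4
  obtain ⟨m, hm⟩ : ∃ m, k = a + 1 + m := ⟨k - (a + 1), by omega⟩
  have h5 := sum_dist_le m a
  rw [← hm] at h5
  rw [← sum_choose]
  omega

/-- The degree argument. -/
theorem degree {J' : Finset (Fin n)} (hJ' : J' ⊆ P.J) (hne : J'.Nonempty)
    (hJk : k ≤ J'.card + 2) (hJk' : J'.card + 1 ≤ k)
    (hm : 2 * P.D.card + k + 1 < P.J.card)
    (hcond : P.D.card + 3 ≤ k ∨ P.C.card + P.D.card + 5 ≤ k ^ 2 + k) {j : ℕ}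
    (hj : P.C.card + P.D.card < ∑ t ∈ range (J'.card + 1), (k - t) + j) {Q : ℝ[X]}
    (hQ : gp (P.C ∪ P.D) (P.ψ J' 0) = nodes (range (J'.card + 1)) k * Q) (hQj : Q.coeff j ≠ 0) :
    n ≤ P.E.card + P.J.card + j + J'.card := by
  classical
  obtain ⟨h, hh⟩ := exists_inv (nodes (range (J'.card + 1)) k) (by rw [nodes_coeff_zero]; exact one_ne_zero)
  have hdeg := (P.F_deg P.J).mul (P.e_deg J' h j)
  have h1 := af hdeg J'ᶜ (by
    rw [P.F_zero, one_mul]
    unfold e
    rw [hQ, hh]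
    exact hQj) (by
    intro x hx hxJ hx0
    have hxJ' : ∀ i ∈ J', x i = 0 := fun i hi => hxJ i (by rw [mem_compl, not_not]; exact hi)
    by_cases hF : P.F P.J x = 0
    · rw [hF, zero_mul]
    have he : P.e J' h j x = 0 := by
      obtain ⟨G', -, hG'c, hG'p⟩ := split_off (range (J'.card + 1)) k (P.C ∪ P.D) (P.ψ J' x) (by
        intro t ht
        rw [mem_range] at ht
        exact P.levels hx hx0 hJ' hne hxJ' hF hJk hJk' hm hcond (by omega))
      unfold e
      rw [hG'p, hh]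
      refine gp_coeff_gt _ _ ?_
      rw [Finset.card_union_of_disjoint P.disjCD] at hG'c
      omega
    rw [he, mul_zero])
  rw [Finset.card_compl, Fintype.card_fin] at h1
  omega

end Big

end Pool.Agent.H58CV
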