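import Pool.Agent.Helper2.KC.Star

/-!
MP_1bf996_co (almost k-covers of the cube): private members with a bounded kernel.
If the members outside `S` which meet `X` involve, apart from one coordinate in `X`, only the coordinates in a
bounded set `Y`, then the kernel theorem applies to a large part of `X`.
-/

set_option autoImplicit false

open Finset

namespace Pool.Agent.H58CV

open Pool.Agent.Helper2.KC

theorem kernel (k A M : ℕ) (hk : 1 ≤ k) : ∃ n₀ : ℕ, ∀ {n : ℕ} {ι : Type} [Fintype ι] [DecidableEq ι]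
    (b : ι → Fin n → ℝ), (∀ u : Finset (Fin n), u.Nonempty → k ≤ (univ.filter fun g => ∑ v ∈ u, b g v = 1).card) →
    ∀ (X : Finset (Fin n)) (S : Finset ι) (Y : Finset (Fin n)), n₀ ≤ X.card → S.card ≤ A → Y.card ≤ M →
      (∀ i ∈ X, ∀ g, g ∉ S → ∀ g', g' ∉ S → b g i ≠ 0 → b g' i ≠ 0 → g = g') →
      (∀ g, g ∉ S → ∀ i ∈ X, b g i ≠ 0 → ∀ j, j ∉ Y → b g j ≠ 0 → j = i) →
      n + k.choose 2 ≤ Fintype.card ι := by
  classical
  obtain ⟨m₀, hstar⟩ := star k A hk
  refine ⟨A + M + (2 ^ 2 ^ M * 2 ^ 2 ^ M) * m₀ + 1, ?_⟩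
  intro n ι _ _ b hcov X S Y hX hS hYM huniq hY
  -- few coordinates occur only in `S`
  set X₀ := X.filter fun i => ∀ g, g ∉ S → b g i = 0 with hX₀
  have hX₀c : X₀.card ≤ S.card := by
    have := Pool.Agent.Helper66.AC.star_poly X₀ S b (fun _ => 0) 1 (fun u hu hne => by
      obtain ⟨g, hg⟩ := Finset.card_pos.1 (lt_of_lt_of_le (by omega) (hcov u hne))
      rw [Finset.mem_filter] at hg
      refine ⟨g, ?_, hg.2⟩
      by_contra hgS
      have h0 : ∑ v ∈ u, b g v = 0 := Finset.sum_eq_zero fun v hv => (Finset.mem_filter.1 (hu hv)).2 g hgS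
      rw [h0] at hg
      exact zero_ne_one hg.2) (fun u _ t ht1 ht2 => by omega)
    simpa using this
  set X₁ := (X \ X₀) \ Y with hX₁
  have hX₁c : (2 ^ 2 ^ M * 2 ^ 2 ^ M) * m₀ < X₁.card := by
    have h1 : X.card - X₀.card ≤ (X \ X₀).card := Finset.le_card_sdiff _ _
    have h2 : (X \ X₀).card - Y.card ≤ X₁.card := Finset.le_card_sdiff _ _
    omega
  have hne : X₁.Nonempty := Finset.card_pos.1 (by omega)
  have hex1 : ∀ i ∈ X₁, ∃ g, g ∉ S ∧ b g i ≠ 0 := by
    intro i hi
    rw [hX₁, Finset.mem_sdiff, Finset.mem_sdiff] at hi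
    by_contra hcon
    push Not at hcon
    exact hi.1.2 (Finset.mem_filter.2 ⟨hi.1.1, hcon⟩)
  obtain ⟨i₀, hi₀⟩ := hne
  obtain ⟨g₀, -⟩ := hex1 i₀ hi₀
  have hex : ∀ i, ∃ g, i ∈ X₁ → g ∉ S ∧ b g i ≠ 0 := by
    intro i
    by_cases hi : i ∈ X₁
    · obtain ⟨g, hg⟩ := hex1 i hi
      exact ⟨g, fun _ => hg⟩
    · exact ⟨g₀, fun h => absurd h hi⟩
  choose R hR using hex
  have hXX : ∀ i ∈ X₁, i ∈ X ∧ i ∉ Y := by
    intro i hi
    rw [hX₁, Finset.mem_sdiff, Finset.mem_sdiff] at hi
    exact ⟨hi.1.1, hi.2⟩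
  have hR2 : ∀ i ∈ X₁, ∀ j ∈ X₁, b (R i) j ≠ 0 → j = i := fun i hi j hj hb =>
    hY (R i) (hR i hi).1 i (hXX i hi).1 (hR i hi).2 j (hXX j hj).2 hb
  -- patterns
  set pat : Fin n → Finset (Finset (Fin n)) × Finset (Finset (Fin n)) := fun i =>
    (Y.powerset.filter fun z => ∑ v ∈ z, b (R i) v = 1, Y.powerset.filter fun z => ∑ v ∈ z, b (R i) v + b (R i) i = 1)
    with hpat
  have hmaps : ∀ i ∈ X₁, pat i ∈ Y.powerset.powerset ×ˢ Y.powerset.powerset := fun i _ =>
    Finset.mem_product.2 ⟨Finset.mem_powerset.2 (Finset.filter_subset _ _),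
      Finset.mem_powerset.2 (Finset.filter_subset _ _)⟩
  have hpc : (Y.powerset.powerset ×ˢ Y.powerset.powerset).card ≤ 2 ^ 2 ^ M * 2 ^ 2 ^ M := by
    rw [Finset.card_product, Finset.card_powerset, Finset.card_powerset]
    have h1 : 2 ^ 2 ^ Y.card ≤ 2 ^ 2 ^ M :=
      Nat.pow_le_pow_right (by norm_num) (Nat.pow_le_pow_right (by norm_num) hYM)
    exact Nat.mul_le_mul h1 h1
  obtain ⟨y, -, hy⟩ := Finset.exists_lt_card_fiber_of_mul_lt_card_of_maps_to hmaps
    (lt_of_le_of_lt (Nat.mul_le_mul_right m₀ hpc) hX₁c)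
  set X₃ := X₁.filter fun i => pat i = y with hX₃
  have hX₃1 : ∀ i ∈ X₃, i ∈ X₁ := fun i hi => (Finset.mem_filter.1 hi).1
  have hpe : ∀ i ∈ X₃, ∀ j ∈ X₃, pat i = pat j := fun i hi j hj =>
    (Finset.mem_filter.1 hi).2.trans (Finset.mem_filter.1 hj).2.symm
  have hzY : ∀ i ∈ X₃, ∀ z : Finset (Fin n), Disjoint z X₃ → ∑ v ∈ z, b (R i) v = ∑ v ∈ z ∩ Y, b (R i) v := by
    intro i hi z hz
    refine (Finset.sum_subset Finset.inter_subset_left fun v hv hvY => ?_).symm
    by_contra hb
    have hvY' : v ∉ Y := fun h => hvY (Finset.mem_inter.2 ⟨hv, h⟩)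
    have h1 := hX₃1 i hi
    have h2 := hY (R i) (hR i h1).1 i (hXX i h1).1 (hR i h1).2 v hvY' hb
    rw [h2] at hv
    exact (Finset.disjoint_left.1 hz hv) hi
  set E : Finset ι := univ \ (S ∪ X₃.image R) with hE
  let P : StarData k (Fin n) ι :=
    { b := b
      D := univ
      X := X₃
      XD := Finset.subset_univ _
      R := R
      S := S
      E := E
      disj := by
        rw [Finset.disjoint_left]
        intro g hg hgE
        rw [hE, Finset.mem_sdiff] at hgE
        exact hgE.2 (Finset.mem_union_left _ hg)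
      RS := fun i hi => (hR i (hX₃1 i hi)).1
      RE := fun i hi h => by
        rw [hE, Finset.mem_sdiff] at h
        exact h.2 (Finset.mem_union_right _ (Finset.mem_image_of_mem R hi))
      hE := fun g hg i hi => by
        by_contra hb
        rw [hE, Finset.mem_sdiff, Finset.mem_union] at hg
        push Not at hg
        have h1 := hX₃1 i hi
        have h2 : g = R i := huniq i (hXX i h1).1 g hg.2.1 (R i) (hR i h1).1 hb (hR i h1).2
        exact hg.2.2 (h2 ▸ Finset.mem_image_of_mem R hi)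
      R1 := fun i hi => (hR i (hX₃1 i hi)).2
      R2 := fun i hi j hj hji => by
        by_contra hb
        exact hji (hR2 i (hX₃1 i hi) j (hX₃1 j hj) hb)
      pat0 := fun i hi j hj z _ hz => by
        rw [hzY i hi z hz, hzY j hj z hz]
        have h1 := congrArg Prod.fst (hpe i hi j hj)
        simp only [hpat] at h1
        have h2 := Finset.ext_iff.1 h1 (z ∩ Y)
        rw [Finset.mem_filter, Finset.mem_filter] at h2
        have h3 : z ∩ Y ∈ Y.powerset := Finset.mem_powerset.2 Finset.inter_subset_right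
        exact ⟨fun h => (h2.1 ⟨h3, h⟩).2, fun h => (h2.2 ⟨h3, h⟩).2⟩
      pat1 := fun i hi j hj z _ hz => by
        rw [hzY i hi z hz, hzY j hj z hz]
        have h1 := congrArg Prod.snd (hpe i hi j hj)
        simp only [hpat] at h1
        have h2 := Finset.ext_iff.1 h1 (z ∩ Y)
        rw [Finset.mem_filter, Finset.mem_filter] at h2
        have h3 : z ∩ Y ∈ Y.powerset := Finset.mem_powerset.2 Finset.inter_subset_right
        exact ⟨fun h => (h2.1 ⟨h3, h⟩).2, fun h => (h2.2 ⟨h3, h⟩).2⟩
      cov := fun u _ hu => by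
        by_cases hEu : ∃ g ∈ E, ∑ v ∈ u, b g v = 1
        · exact Or.inl hEu
        · refine Or.inr ((hcov u hu).trans ?_)
          have hsub : (univ.filter fun g => ∑ v ∈ u, b g v = 1) ⊆
              (S.filter fun g => ∑ v ∈ u, b g v = 1) ∪ (X₃.filter fun i => ∑ v ∈ u, b (R i) v = 1).image R := by
            intro g hg
            rw [Finset.mem_filter] at hg
            by_cases hgS : g ∈ S
            · exact Finset.mem_union_left _ (Finset.mem_filter.2 ⟨hgS, hg.2⟩)
            · refine Finset.mem_union_right _ ?_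
              have hgR : g ∈ X₃.image R := by
                by_contra hgR
                refine hEu ⟨g, ?_, hg.2⟩
                rw [hE, Finset.mem_sdiff, Finset.mem_union]
                exact ⟨Finset.mem_univ _, fun h => h.elim hgS hgR⟩
              obtain ⟨i, hi, rfl⟩ := Finset.mem_image.1 hgR
              exact Finset.mem_image_of_mem R (Finset.mem_filter.2 ⟨hi, hg.2⟩)
          refine (Finset.card_le_card hsub).trans ((Finset.card_union_le _ _).trans ?_)
          exact Nat.add_le_add_left Finset.card_image_le _ }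
  have hfin := hstar P hS (by
    show m₀ ≤ X₃.card
    exact hy.le)
  have h1 : P.D.card = n := by
    show (univ : Finset (Fin n)).card = n
    rw [Finset.card_univ, Fintype.card_fin]
  have h2 : P.E.card + P.S.card + P.X.card = Fintype.card ι := by
    show E.card + S.card + X₃.card = _
    have hinj : (X₃.image R).card = X₃.card := Finset.card_image_of_injOn fun i hi j hj hij => by
      have hi' := hX₃1 i hi
      have hj' := hX₃1 j hj
      refine (hR2 i hi' j hj' ?_).symm
      show b (R i) j ≠ 0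
      have hij' : R i = R j := hij
      rw [hij']
      exact (hR j hj').2
    have hdis : Disjoint S (X₃.image R) := by
      rw [Finset.disjoint_right]
      intro g hg
      obtain ⟨i, hi, rfl⟩ := Finset.mem_image.1 hg
      exact (hR i (hX₃1 i hi)).1
    have h3 : E.card + (S ∪ X₃.image R).card = Fintype.card ι := by
      rw [hE, Finset.card_sdiff_add_card_eq_card (Finset.subset_univ _), Finset.card_univ]
    rw [Finset.card_union_of_disjoint hdis, hinj] at h3
    omega
  omega

end Pool.Agent.H58CV
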