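import Pool.Agent.Helper58.CV.Big

/-!
# Levels of the constant members
-/

set_option autoImplicit false

open Finset Polynomial

namespace Pool.Agent.H58CV

namespace Big

variable {n k : ℕ} {ι : Type} [Fintype ι] [DecidableEq ι] (P : Big n k ι)

/-- the dissociated members which reach a subset of `J'` of size `t` -/
noncomputable def dd (x : Fin n → ℝ) (J' : Finset (Fin n)) (t : ℕ) : ℕ :=
  ∑ T ∈ powersetCard t J', (P.ds x T).card

theorem sum_dd {x : Fin n → ℝ} (hx : ∀ i, x i = 0 ∨ x i = 1) {J' : Finset (Fin n)} (hJ' : J' ⊆ P.J) :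
    ∑ t ∈ range (J'.card + 1), P.dd x J' t ≤ P.D.card := by
  unfold dd
  rw [← Finset.sum_powerset]
  exact P.sum_ds hx _ fun T hT => (mem_powerset.1 hT).trans hJ'

theorem le_dd {x : Fin n → ℝ} {J' T : Finset (Fin n)} (hT : T ⊆ J') : (P.ds x T).card ≤ P.dd x J' T.card := by
  unfold dd
  exact Finset.single_le_sum (f := fun T => (P.ds x T).card) (fun _ _ => Nat.zero_le _)
    (mem_powersetCard.2 ⟨hT, rfl⟩)

/-- negative and nonnegative levels are disjoint -/
theorem sum_levels (x : Fin n → ℝ) (K K' : ℕ) :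
    ∑ l ∈ range K, (P.cs x (-((l + 1 : ℕ) : ℝ))).card + ∑ t ∈ range K', (P.cs x (t : ℝ)).card ≤ P.C.card := by
  classical
  have h1 := P.sum_cs x ((range K).image (fun l : ℕ => -((l + 1 : ℕ) : ℝ)) ∪ (range K').image (fun t : ℕ => (t : ℝ)))
  rw [Finset.sum_union, Finset.sum_image, Finset.sum_image] at h1
  · exact h1
  · intro a _ b _ h
    have h2 : (a : ℝ) = (b : ℝ) := h
    exact_mod_cast h2
  · intro a _ b _ h
    have h2 : ((a + 1 : ℕ) : ℝ) = ((b + 1 : ℕ) : ℝ) := neg_injective h
    have h3 : a + 1 = b + 1 := by exact_mod_cast h2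
    omega
  · rw [Finset.disjoint_left]
    intro y hy hy'
    obtain ⟨a, -, rfl⟩ := mem_image.1 hy
    obtain ⟨b, -, hb⟩ := mem_image.1 hy'
    have h2 : (0 : ℝ) < ((a + 1 : ℕ) : ℝ) := by positivity
    have h3 : (0 : ℝ) ≤ (b : ℝ) := by positivity
    linarith

theorem sum_range_sub (k K : ℕ) (hk : K + 1 = k) : ∑ l ∈ range K, (k - (l + 1)) = k.choose 2 := by
  subst hk
  rw [← sum_choose K]
  exact Finset.sum_congr rfl fun l _ => by omega

/-- At a point with no private member, the constant members reach the level `t` often enough. -/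
theorem unspoiled {x : Fin n → ℝ} (hx : ∀ i, x i = 0 ∨ x i = 1) (hx0 : x ≠ 0) {J' : Finset (Fin n)}
    (hJ' : J' ⊆ P.J) (hxJ : ∀ i ∈ J', x i = 0) (hE : ∀ g ∈ P.E, lf P.b g x ≠ 1) (hV : P.V x = ∅)
    (hJk : k ≤ J'.card + 2) (hJk' : J'.card + 1 ≤ k)
    (hm : 2 * P.D.card + k + 1 < P.J.card)
    (hcond : P.D.card + 3 ≤ k ∨ P.C.card + P.D.card + 5 ≤ k ^ 2 + k) {t : ℕ} (ht1 : 1 ≤ t)
    (htJ : t + 1 ≤ J'.card) : k - t ≤ (P.cs x t).card := by
  classical
  by_contra hlt
  push Not at hlt
  -- every set of zeros of size `t` is reached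
  have hreach : ∀ T ⊆ P.J, (∀ i ∈ T, x i = 0) → T.card = t → k - t - (P.cs x t).card ≤ (P.ds x T).card := by
    intro T hT hTz hTc
    have h := P.key hx hT (sw_ne_zeros hx0 hTz) hE
    rw [hV, symm_empty, lev_zero hTz, hTc] at h
    omega
  have hch : J'.card ≤ J'.card.choose t := choose_ge ht1 htJ
  have hdd : J'.card.choose t * (k - t - (P.cs x t).card) ≤ P.dd x J' t := by
    unfold dd
    rw [← card_powersetCard, ← smul_eq_mul, ← Finset.sum_const]
    refine Finset.sum_le_sum fun T hT => ?_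
    rw [mem_powersetCard] at hT
    exact hreach T (hT.1.trans hJ') (fun i hi => hxJ i (hT.1 hi)) hT.2
  have hsum := P.sum_dd hx hJ'
  have hdt : P.dd x J' t ≤ ∑ t ∈ range (J'.card + 1), P.dd x J' t :=
    Finset.single_le_sum (f := fun t => P.dd x J' t) (fun _ _ => Nat.zero_le _) (mem_range.2 (by omega))
  have hJD : J'.card ≤ P.D.card := by
    have h1 : J'.card.choose t * 1 ≤ J'.card.choose t * (k - t - (P.cs x t).card) :=
      Nat.mul_le_mul_left _ (by omega)
    omega
  have hcond2 : P.C.card + P.D.card + 5 ≤ k ^ 2 + k := by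
    rcases hcond with h | h
    · omega
    · exact h
  -- there are few zeros in `J`
  set Z := P.J.filter fun i => x i = 0 with hZ
  have hZJ : Z ⊆ P.J := Finset.filter_subset _ _
  have hJZ : J' ⊆ Z := fun i hi => mem_filter.2 ⟨hJ' hi, hxJ i hi⟩
  have hZc : Z.card ≤ P.D.card := by
    by_contra hcon
    push Not at hcon
    have h1 := choose_ge ht1 (show t + 1 ≤ Z.card by have := Finset.card_le_card hJZ; omega)
    obtain ⟨T, hT, hTc, hT0⟩ := P.exists_free hx hZJ (t := t) (by rw [card_powersetCard]; omega)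
    have h2 := hreach T (hT.trans hZJ) (fun i hi => (mem_filter.1 (hT hi)).2) hTc
    omega
  set U := P.J \ Z with hU
  have hUJ : U ⊆ P.J := Finset.sdiff_subset
  have hUc : U.card + Z.card = P.J.card := by
    rw [hU]
    exact Finset.card_sdiff_add_card_eq_card hZJ
  have hU1 : ∀ i ∈ U, x i = 1 := by
    intro i hi
    rw [hU, mem_sdiff, hZ, mem_filter] at hi
    rcases hx i with h | h
    · exact absurd ⟨hi.1, h⟩ hi.2
    · exact h
  -- the negative levels
  have hneg : ∀ l ∈ range (k - 1), k - (l + 1) ≤ (P.cs x (-((l + 1 : ℕ) : ℝ))).card := by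
    intro l hl
    rw [mem_range] at hl
    have h1 := choose_ge (m := U.card) (t := l + 1) (by omega) (by omega)
    obtain ⟨T, hT, hTc, hT0⟩ := P.exists_free hx hUJ (t := l + 1) (by rw [card_powersetCard]; omega)
    obtain ⟨i, hi, hiT⟩ : ∃ i ∈ U, i ∉ T := by
      by_contra hcon
      push Not at hcon
      have := Finset.card_le_card (show U ⊆ T from hcon)
      omega
    have h := P.key hx (hT.trans hUJ) (sw_ne_mem hiT (hU1 i hi)) hE
    rw [hV, symm_empty, lev_one (fun i hi => hU1 i (hT hi)), hTc, hT0] at h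
    omega
  -- the nonnegative levels
  have hpos : ∀ s ∈ range (J'.card + 1), (k - s) + (if s = t then J'.card - 1 else 0) ≤
      (P.cs x (s : ℝ)).card + P.dd x J' s := by
    intro s hs
    rw [mem_range] at hs
    by_cases hst : s = t
    · subst hst
      rw [if_pos rfl]
      have h1 : k - s + (J'.card - 1) ≤ (P.cs x s).card + J'.card * (k - s - (P.cs x s).card) := by
        obtain ⟨δ, hδ⟩ : ∃ δ, k - s = (P.cs x s).card + (δ + 1) := ⟨k - s - (P.cs x s).card - 1, by omega⟩
        obtain ⟨m, hm'⟩ : ∃ m, J'.card = m + 1 := ⟨J'.card - 1, by omega⟩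
        rw [hδ, hm', Nat.add_sub_cancel_left, Nat.add_sub_cancel]
        nlinarith
      have h2 : J'.card * (k - s - (P.cs x s).card) ≤ J'.card.choose s * (k - s - (P.cs x s).card) :=
        Nat.mul_le_mul_right _ hch
      omega
    · rw [if_neg hst, add_zero]
      obtain ⟨T, hT, hTc⟩ := Finset.exists_subset_card_eq (show s ≤ J'.card by omega)
      have hTz : ∀ i ∈ T, x i = 0 := fun i hi => hxJ i (hT hi)
      have h := P.key hx (hT.trans hJ') (sw_ne_zeros hx0 hTz) hE
      have h2 := P.le_dd (x := x) hT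
      rw [hV, symm_empty, lev_zero hTz, hTc] at h
      rw [hTc] at h2
      omega
  have h1 := Finset.sum_le_sum hneg
  have h2 := Finset.sum_le_sum hpos
  rw [Finset.sum_add_distrib, Finset.sum_add_distrib, Finset.sum_ite_eq' (range (J'.card + 1)) t,
    if_pos (mem_range.2 (by omega))] at h2
  have h3 := P.sum_levels x (k - 1) (J'.card + 1)
  rw [sum_range_sub k (k - 1) (by omega)] at h1
  -- the sum of the `k - s`
  have h4 : (k + 1).choose 2 ≤ ∑ s ∈ range (J'.card + 1), (k - s) + 1 := by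
    rw [← sum_choose]
    by_cases h5 : J'.card + 1 = k
    · rw [h5]
      omega
    · have h6 : k = J'.card + 1 + 1 := by omega
      have h7 : ∑ s ∈ range k, (k - s) = ∑ s ∈ range (J'.card + 1), (k - s) + (k - (J'.card + 1)) := by
        conv_lhs => rw [h6]
        rw [Finset.sum_range_succ]
        congr 1
        · rw [← h6]
        · omega
      omega
  have h8 : (k + 1).choose 2 = k + k.choose 2 := by
    rw [Nat.choose_succ_succ' k 1, Nat.choose_one_right]
  have h9 : k.choose 2 * 2 + k = k ^ 2 := by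
    have h10 := Nat.triangle_succ (k - 1)
    have h11 := Nat.choose_two_right k
    have h12 : 2 ∣ k * (k - 1) := (Nat.even_mul_pred_self k).two_dvd
    obtain ⟨q, hq⟩ := h12
    rw [h11, hq, Nat.mul_div_cancel_left _ (by norm_num)]
    obtain ⟨j, rfl⟩ : ∃ j, k = j + 1 := ⟨k - 1, by omega⟩
    rw [Nat.add_sub_cancel] at hq
    nlinarith
  omega

end Big

end Pool.Agent.H58CV
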