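import Pool.Agent.Helper58.CV.Core

/-!
# Almost `k`-covers with private members on `k - 1` coordinates: the lower bound
-/

set_option autoImplicit false

open Finset Polynomial

namespace Pool.Agent.H58CV

theorem sum_dist_le (m a : ℕ) : ∑ t ∈ range (a + 1 + m), (a + 1 + m - t) ≤
    ∑ t ∈ range (a + 1 + m), (a + 1 + m - ((t - a) + (a - t))) := by
  rw [Finset.sum_range_add, Finset.sum_range_add (fun t => a + 1 + m - ((t - a) + (a - t)))]
  have h1 : ∑ t ∈ range (a + 1), (a + 1 + m - t) = ∑ t ∈ range (a + 1), (a + 1 + m - ((t - a) + (a - t))) := by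
    rw [← Finset.sum_range_reflect (fun t => a + 1 + m - t) (a + 1)]
    refine Finset.sum_congr rfl fun t ht => ?_
    rw [mem_range] at ht
    omega
  rw [h1]
  refine Nat.add_le_add_left (Finset.sum_le_sum fun t _ => ?_) _
  omega

theorem sum_choose (k : ℕ) : ∑ t ∈ range k, (k - t) = (k + 1).choose 2 := by
  induction k with
  | zero => simp
  | succ k ih =>
    rw [Finset.sum_range_succ']
    have h1 : ∑ t ∈ range k, (k + 1 - (t + 1)) = ∑ t ∈ range k, (k - t) :=
      Finset.sum_congr rfl fun t _ => by omega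
    have h2 : (k + 1 + 1).choose 2 = (k + 1) + (k + 1).choose 2 := by
      rw [Nat.choose_succ_succ' (k + 1) 1, Nat.choose_one_right]
    rw [h1, ih, h2]
    omega

theorem nodes_Ico (k : ℕ) (hk : 1 ≤ k) : nodes (Ico 1 k) k = nodes (range k) k := by
  unfold nodes
  have h1 := Finset.prod_eq_prod_Ico_succ_bot (show 0 < k by omega)
    (fun t : ℕ => (1 + C (t : ℝ) * X) ^ (k - t))
  rw [Finset.range_eq_Ico, h1]
  simp

theorem nodes_succ (K : ℕ) : nodes (range (K + 1)) (K + 1) = nodes (range K) (K + 1) * (1 + C (K : ℝ) * X) := by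
  unfold nodes
  rw [Finset.prod_range_succ, Nat.add_sub_cancel_left, pow_one]

namespace Priv

variable {n k : ℕ} {ι : Type} [Fintype ι] [DecidableEq ι] (P : Priv n k ι)

/-- If some nonzero point off `J` is not covered by `E` then `B` is large. -/
theorem B_large (hk : P.J.card + 1 = k) {x : Fin n → ℝ} (hx : ∀ i, x i = 0 ∨ x i = 1)
    (hxJ : ∀ i ∈ P.J, x i = 0) (hx0 : x ≠ 0) (hE : ∀ g ∈ P.E, lf P.b g x ≠ 1) :
    (k + 1).choose 2 ≤ P.B.card := by
  classical
  have hVJ : P.V x ⊆ P.J := Finset.filter_subset _ _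
  have ha : (P.V x).card ≤ P.J.card := Finset.card_le_card hVJ
  set a := (P.V x).card with hadef
  have h1 : ∀ t ∈ range k, k - ((t - a) + (a - t)) ≤ (P.B.filter fun g => P.ψ x g = t).card := by
    intro t ht
    rw [mem_range] at ht
    by_cases hta : t ≤ a
    · obtain ⟨T, hT, hTc⟩ := Finset.exists_subset_card_eq (hta : t ≤ (P.V x).card)
      have h := P.key hx (hT.trans hVJ) (fun i hi => hxJ i (hVJ (hT hi))) (Or.inl hx0) hE
      have h2 : symmDiff T (P.V x) = P.V x \ T := by
        rw [symmDiff_def, Finset.sup_eq_union, Finset.sdiff_eq_empty_iff_subset.2 hT, Finset.empty_union]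
      rw [h2, Finset.card_sdiff_of_subset hT, hTc] at h
      omega
    · push Not at hta
      obtain ⟨T, hVT, hTJ, hTc⟩ := Finset.exists_subsuperset_card_eq hVJ (n := t) hta.le (by omega)
      have h := P.key hx hTJ (fun i hi => hxJ i (hTJ hi)) (Or.inl hx0) hE
      have h2 : symmDiff T (P.V x) = T \ P.V x := by
        rw [symmDiff_def, Finset.sup_eq_union, Finset.sdiff_eq_empty_iff_subset.2 hVT, Finset.union_empty]
      rw [h2, Finset.card_sdiff_of_subset hVT, hTc] at h
      omega
  have h2 : ∑ t ∈ range k, (P.B.filter fun g => P.ψ x g = t).card ≤ P.B.card := by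
    rw [← Finset.card_biUnion]
    · refine Finset.card_le_card fun g hg => ?_
      obtain ⟨t, -, h⟩ := Finset.mem_biUnion.1 hg
      exact (Finset.mem_filter.1 h).1
    · intro t _ t' _ hne
      rw [Function.onFun, Finset.disjoint_left]
      intro g hg hg'
      have e1 := (Finset.mem_filter.1 hg).2
      have e2 := (Finset.mem_filter.1 hg').2
      rw [e1] at e2
      exact hne (by exact_mod_cast e2)
  refine le_trans ?_ ((Finset.sum_le_sum h1).trans h2)
  obtain ⟨m, hm⟩ : ∃ m, k = a + 1 + m := ⟨k - (a + 1), by omega⟩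
  rw [← sum_choose, hm]
  exact sum_dist_le m a

/-- The theorem. -/
theorem main (hk : P.J.card + 1 = k) : n + k.choose 2 ≤ Fintype.card ι := by
  classical
  have hcard := P.card_eq
  have hJn : P.J.card ≤ n := by
    have := Finset.card_le_univ P.J
    rwa [Fintype.card_fin] at this
  have h01 : ∀ i : Fin n, (0 : Fin n → ℝ) i = 0 ∨ (0 : Fin n → ℝ) i = 1 := fun i => Or.inl rfl
  have hE0 : ∀ g ∈ P.E, lf P.b g 0 ≠ 1 := fun g _ => by rw [lf_zero]; exact zero_ne_one
  -- the structure at the origin
  obtain ⟨G₀, hG₀, hG₀c, hG₀p⟩ := split_off (Ico 1 k) k P.B (P.ψ 0) (by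
    intro t ht
    rw [mem_Ico] at ht
    exact P.key0 h01 (Subset.refl _) (fun i _ => rfl) hE0 P.V_zero (by omega) (Or.inr ht.1))
  have hψ0 : ∀ g ∈ G₀, P.ψ 0 g ≠ 0 := by
    intro g hg
    unfold ψ
    rw [lf_zero, sub_zero]
    exact one_div_ne_zero (P.hα0 g (hG₀ hg))
  have hsum : ∑ t ∈ range k, (k - t) = k + ∑ t ∈ Ico 1 k, (k - t) := by
    have h1 := Finset.sum_eq_sum_Ico_succ_bot (show 0 < k by omega) (fun t : ℕ => k - t)
    rw [Finset.range_eq_Ico, h1]
    simp
  have hch := sum_choose k
  have hch2 : (k + 1).choose 2 = k + k.choose 2 := by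
    rw [Nat.choose_succ_succ' k 1, Nat.choose_one_right]
  by_cases hA : ∀ x : Fin n → ℝ, (∀ i, x i = 0 ∨ x i = 1) → (∀ i ∈ P.J, x i = 0) → x ≠ 0 → P.F x = 0
  · -- the members in `E` cover everything
    have h1 := af P.F_deg P.Jᶜ (by rw [P.F_zero]; exact one_ne_zero) (fun x hx hxJ hx0 =>
      hA x hx (fun i hi => hxJ i (by rw [mem_compl, not_not]; exact hi)) hx0)
    rw [Finset.card_compl, Fintype.card_fin] at h1
    omega
  · push Not at hA
    obtain ⟨x₁, hx₁, hx₁J, hx₁0, hx₁F⟩ := hA
    have hB := P.B_large hk hx₁ hx₁J hx₁0 (P.F_ne hx₁F)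
    obtain ⟨r, hr⟩ : ∃ r, P.B.card = (k + 1).choose 2 + r := ⟨P.B.card - (k + 1).choose 2, by omega⟩
    by_cases hc : (gp G₀ (P.ψ 0)).coeff (r + 1) = 0
    · -- second case
      by_cases hJ0 : P.J.card = 0
      · -- `k = 1`
        exfalso
        have h2 : (gp G₀ (P.ψ 0)).coeff G₀.card ≠ 0 := by
          rw [gp_coeff_card]
          exact Finset.prod_ne_zero_iff.2 hψ0
        apply h2
        have h3 : G₀.card = r + 1 := by omega
        rw [h3]
        exact hc
      obtain ⟨K, hK⟩ : ∃ K, P.J.card = K + 1 := ⟨P.J.card - 1, by omega⟩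
      have hkK : k = K + 2 := by omega
      have hc2 : (gp G₀ (P.ψ 0)).coeff (r + 2) ≠ 0 := gp_consecutive G₀ hψ0 (by omega) hc
      obtain ⟨j₀, hj₀⟩ : ∃ j₀, j₀ ∈ P.J := by
        rw [← Finset.Nonempty, ← Finset.card_pos]
        omega
      obtain ⟨h, hh⟩ := exists_inv (nodes (range (K + 1)) k) (by rw [nodes_coeff_zero]; exact one_ne_zero)
      have hJ'c : (P.J.erase j₀).card = K := by
        rw [Finset.card_erase_of_mem hj₀]
        omega
      have hdeg := (P.F_deg.mul P.F'_deg).mul (P.e_deg h (r + 2))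
      have h1 := af hdeg (P.J.erase j₀)ᶜ (by
        rw [P.F_zero, P.F'_zero, one_mul, one_mul]
        unfold e
        rw [hG₀p, nodes_Ico k (by omega)]
        have h4 : nodes (range k) k = nodes (range (K + 1)) k * (1 + C ((K + 1 : ℕ) : ℝ) * X) := by
          rw [hkK]
          exact nodes_succ (K + 1)
        rw [h4, mul_assoc, hh, lin_coeff_succ, hc, mul_zero, add_zero]
        exact hc2) (by
        intro x hx hxJ hx0
        have hxJ' : ∀ i ∈ P.J.erase j₀, x i = 0 := fun i hi => hxJ i (by rw [mem_compl, not_not]; exact hi)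
        by_cases hF : P.F x = 0
        · rw [hF]
          ring
        by_cases hF' : P.F' x = 0
        · rw [hF']
          ring
        have he : P.e h (r + 2) x = 0 := by
          obtain ⟨G', -, hG'c, hG'p⟩ := split_off (range (K + 1)) k P.B (P.ψ x) (by
            intro t ht
            rw [mem_range] at ht
            exact P.key0 hx (Finset.erase_subset _ _) hxJ' (P.F_ne hF) (P.F'_ne hF') (by omega)
              (Or.inl hx0))
          unfold e
          rw [hG'p, hh]
          refine gp_coeff_gt _ _ ?_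
          have h5 : ∑ t ∈ range k, (k - t) = ∑ t ∈ range (K + 1), (k - t) + 1 := by
            conv_lhs => rw [hkK]
            rw [Finset.sum_range_succ]
            congr 1
            · rw [hkK]
            · omega
          omega
        rw [he, mul_zero])
      rw [Finset.card_compl, Fintype.card_fin, hJ'c] at h1
      omega
    · -- first case
      obtain ⟨h, hh⟩ := exists_inv (nodes (range k) k) (by rw [nodes_coeff_zero]; exact one_ne_zero)
      have hdeg := (P.F_deg.mul P.F'_deg).mul (P.e_deg h (r + 1))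
      have h1 := af hdeg P.Jᶜ (by
        rw [P.F_zero, P.F'_zero, one_mul, one_mul]
        unfold e
        rw [hG₀p, nodes_Ico k (by omega), hh]
        exact hc) (by
        intro x hx hxJ hx0
        have hxJ' : ∀ i ∈ P.J, x i = 0 := fun i hi => hxJ i (by rw [mem_compl, not_not]; exact hi)
        by_cases hF : P.F x = 0
        · rw [hF]
          ring
        by_cases hF' : P.F' x = 0
        · rw [hF']
          ring
        have he : P.e h (r + 1) x = 0 := by
          obtain ⟨G', -, hG'c, hG'p⟩ := split_off (range k) k P.B (P.ψ x) (by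
            intro t ht
            rw [mem_range] at ht
            exact P.key0 hx (Subset.refl _) hxJ' (P.F_ne hF) (P.F'_ne hF') (by omega)
              (Or.inl hx0))
          unfold e
          rw [hG'p, hh]
          refine gp_coeff_gt _ _ ?_
          omega
        rw [he, mul_zero])
      rw [Finset.card_compl, Fintype.card_fin] at h1
      omega

end Priv

end Pool.Agent.H58CV
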