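import Mathlib

/-!
# Two consecutive coefficients of a polynomial with only real roots
-/

set_option autoImplicit false

open Finset Polynomial

namespace Pool.Agent.H58CV

private theorem coeffs_prod (s : Multiset ℝ) (h0 : ∀ r ∈ s, r ≠ 0) :
    ((s.map fun r => (X - C r : ℝ[X])).prod.coeff 0 ≠ 0) ∧
    (s.map fun r => (X - C r : ℝ[X])).prod.coeff 1 ^ 2 -
      2 * (s.map fun r => (X - C r : ℝ[X])).prod.coeff 0 * (s.map fun r => (X - C r : ℝ[X])).prod.coeff 2 =
      (s.map fun r => (X - C r : ℝ[X])).prod.coeff 0 ^ 2 * (s.map fun r : ℝ => (r⁻¹) ^ 2).sum := by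
  induction s using Multiset.induction_on with
  | empty =>
    simp [coeff_one]
  | cons r s ih =>
    obtain ⟨ih0, ih1⟩ := ih fun r hr => h0 r (Multiset.mem_cons_of_mem hr)
    have hr : r ≠ 0 := h0 r (Multiset.mem_cons_self r s)
    simp only [Multiset.map_cons, Multiset.prod_cons, Multiset.sum_cons]
    set q := (s.map fun r => (X - C r : ℝ[X])).prod with hq
    have e0 : ((X - C r) * q).coeff 0 = -(r * q.coeff 0) := by
      rw [sub_mul, coeff_sub, coeff_X_mul_zero, coeff_C_mul]
      ring
    have e1 : ((X - C r) * q).coeff 1 = q.coeff 0 - r * q.coeff 1 := by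
      rw [sub_mul, coeff_sub, coeff_C_mul, coeff_X_mul q 0]
    have e2 : ((X - C r) * q).coeff 2 = q.coeff 1 - r * q.coeff 2 := by
      rw [sub_mul, coeff_sub, coeff_C_mul, coeff_X_mul q 1]
    rw [e0, e1, e2]
    refine ⟨neg_ne_zero.2 (mul_ne_zero hr ih0), ?_⟩
    have h1 : r * r⁻¹ = 1 := mul_inv_cancel₀ hr
    have h2 : (r * r⁻¹) ^ 2 = 1 := by rw [h1, one_pow]
    linear_combination r ^ 2 * ih1 - (q.coeff 0) ^ 2 * h2

private theorem splits_card {p : ℝ[X]} (hp : p.Splits) : Multiset.card p.roots = p.natDegree :=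
  (splits_iff_card_roots.1 hp)

/-- The derivative of a polynomial with only real roots has only real roots. -/
theorem splits_deriv {p : ℝ[X]} (hp : p.Splits) : (derivative p).Splits := by
  rw [splits_iff_card_roots]
  by_cases h0 : p.natDegree = 0
  · have h1 : derivative p = 0 := derivative_of_natDegree_zero h0
    rw [h1]
    simp
  have h1 := card_roots_le_derivative p
  rw [splits_card hp] at h1
  have h2 := natDegree_derivative_lt h0
  have h3 := card_roots' (derivative p)
  omega

theorem splits_iter {p : ℝ[X]} (hp : p.Splits) (k : ℕ) : (derivative^[k] p).Splits := by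
  induction k with
  | zero => exact hp
  | succ k ih =>
    rw [Function.iterate_succ_apply']
    exact splits_deriv ih

private theorem small {q : ℝ[X]} (hq : q.Splits) (h0 : q.coeff 0 ≠ 0) (h1 : q.coeff 1 = 0)
    (h2 : q.coeff 2 = 0) : q.natDegree = 0 := by
  have hq0 : q ≠ 0 := by
    rintro rfl
    simp at h0
  have hr : ∀ r ∈ q.roots, r ≠ 0 := by
    rintro r hr rfl
    have h3 := (mem_roots'.1 hr).2
    rw [IsRoot.def, ← coeff_zero_eq_eval_zero] at h3
    exact h0 h3
  obtain ⟨h4, h5⟩ := coeffs_prod q.roots hr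
  have h6 := hq.eq_prod_roots
  set P := (q.roots.map fun r => (X - C r : ℝ[X])).prod with hP
  have hl : q.leadingCoeff ≠ 0 := leadingCoeff_ne_zero.2 hq0
  have e1 : P.coeff 1 = 0 := by
    rw [h6, coeff_C_mul] at h1
    exact (mul_eq_zero.1 h1).resolve_left hl
  have e2 : P.coeff 2 = 0 := by
    rw [h6, coeff_C_mul] at h2
    exact (mul_eq_zero.1 h2).resolve_left hl
  rw [e1, e2] at h5
  have h7 : (q.roots.map fun r : ℝ => (r⁻¹) ^ 2).sum = 0 := by
    have h8 : P.coeff 0 ^ 2 * (q.roots.map fun r : ℝ => (r⁻¹) ^ 2).sum = 0 := by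
      rw [← h5]
      ring
    exact (mul_eq_zero.1 h8).resolve_left (pow_ne_zero 2 h4)
  rw [← splits_card hq, Multiset.card_eq_zero]
  by_contra hne
  obtain ⟨r, hrm⟩ := Multiset.exists_mem_of_ne_zero hne
  have h9 : (r⁻¹) ^ 2 ≤ (q.roots.map fun r : ℝ => (r⁻¹) ^ 2).sum := by
    refine Multiset.single_le_sum ?_ _ (Multiset.mem_map_of_mem _ hrm)
    intro x hx
    obtain ⟨y, -, rfl⟩ := Multiset.mem_map.1 hx
    positivity
  have h10 : 0 < (r⁻¹) ^ 2 := by
    have := hr r hrm
    positivity
  linarith

/-- A polynomial with only real roots and nonzero constant coefficient has no two consecutive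
vanishing coefficients below the leading coefficient. -/
theorem consecutive {p : ℝ[X]} (hp : p.Splits) (h0 : p.coeff 0 ≠ 0) {j : ℕ} (hj : j + 2 ≤ p.natDegree)
    (h1 : p.coeff (j + 1) = 0) : p.coeff (j + 2) ≠ 0 := by
  intro h2
  -- the largest index at most `j` with nonzero coefficient
  obtain ⟨i, hij, hi, hmax⟩ : ∃ i ≤ j, p.coeff i ≠ 0 ∧ ∀ l, i < l → l ≤ j → p.coeff l = 0 := by
    classical
    have hne : ((range (j + 1)).filter fun i => p.coeff i ≠ 0).Nonempty :=
      ⟨0, by simp [h0]⟩
    refine ⟨((range (j + 1)).filter fun i => p.coeff i ≠ 0).max' hne, ?_, ?_, ?_⟩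
    · have := Finset.max'_mem _ hne
      rw [mem_filter, mem_range] at this
      omega
    · have := Finset.max'_mem _ hne
      rw [mem_filter] at this
      exact this.2
    · intro l hl hlj
      by_contra hne0
      have := Finset.le_max' ((range (j + 1)).filter fun i => p.coeff i ≠ 0) l (by
        rw [mem_filter, mem_range]
        exact ⟨by omega, hne0⟩)
      omega
  have hz1 : p.coeff (i + 1) = 0 := by
    by_cases h : i + 1 ≤ j
    · exact hmax _ (by omega) h
    · rw [show i + 1 = j + 1 by omega]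
      exact h1
  have hz2 : p.coeff (i + 2) = 0 := by
    by_cases h : i + 2 ≤ j
    · exact hmax _ (by omega) h
    · by_cases h' : i + 2 = j + 1
      · rw [h']
        exact h1
      · rw [show i + 2 = j + 2 by omega]
        exact h2
  have hq := splits_iter hp i
  have hdeg := small hq (by
    rw [coeff_iterate_derivative, zero_add]
    have h3 : (i.descFactorial i : ℝ) ≠ 0 := by
      rw [Nat.descFactorial_self]
      exact_mod_cast Nat.factorial_ne_zero i
    rw [nsmul_eq_mul]
    exact mul_ne_zero h3 hi) (by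
    rw [coeff_iterate_derivative, add_comm 1 i, hz1, smul_zero]) (by
    rw [coeff_iterate_derivative, add_comm 2 i, hz2, smul_zero])
  have hlead : (derivative^[i] p).coeff (p.natDegree - i) ≠ 0 := by
    rw [coeff_iterate_derivative, show p.natDegree - i + i = p.natDegree by omega, nsmul_eq_mul]
    refine mul_ne_zero ?_ ?_
    · have : 0 < p.natDegree.descFactorial i := Nat.descFactorial_pos.2 (by omega)
      exact_mod_cast this.ne'
    · have hp0 : p ≠ 0 := by
        rintro rfl
        simp at h0
      exact leadingCoeff_ne_zero.2 hp0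
  apply hlead
  refine coeff_eq_zero_of_natDegree_lt ?_
  rw [hdeg]
  omega

end Pool.Agent.H58CV
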