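import Pool.Agent.Helper58.CV.Deg
import Pool.Agent.Helper58.CV.Real

/-!
# Products of linear polynomials with prescribed factors
-/

set_option autoImplicit false

open Finset Polynomial

namespace Pool.Agent.H58CV

variable {ι : Type*}

/-- The generating polynomial of the elementary symmetric functions. -/
noncomputable def gp (G : Finset ι) (ψ : ι → ℝ) : ℝ[X] := ∏ g ∈ G, (1 + C (ψ g) * X)

/-- Node polynomial. -/
noncomputable def nodes (T : Finset ℕ) (k : ℕ) : ℝ[X] := ∏ t ∈ T, (1 + C (t : ℝ) * X) ^ (k - t)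

theorem gp_insert [DecidableEq ι] {g : ι} {G : Finset ι} (hg : g ∉ G) (ψ : ι → ℝ) :
    gp (insert g G) ψ = (1 + C (ψ g) * X) * gp G ψ := by
  unfold gp
  rw [Finset.prod_insert hg]

theorem lin_coeff_zero (a : ℝ) (q : ℝ[X]) : ((1 + C a * X) * q).coeff 0 = q.coeff 0 := by
  rw [add_mul, one_mul, coeff_add, mul_assoc, coeff_C_mul, coeff_X_mul_zero]
  ring

theorem lin_coeff_succ (a : ℝ) (q : ℝ[X]) (j : ℕ) :
    ((1 + C a * X) * q).coeff (j + 1) = q.coeff (j + 1) + a * q.coeff j := by
  rw [add_mul, one_mul, coeff_add, mul_assoc, coeff_C_mul, coeff_X_mul]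

theorem gp_coeff_zero (G : Finset ι) (ψ : ι → ℝ) : (gp G ψ).coeff 0 = 1 := by
  classical
  induction G using Finset.induction_on with
  | empty => simp [gp]
  | insert g G hg ih => rw [gp_insert hg, lin_coeff_zero, ih]

theorem gp_coeff_gt (G : Finset ι) (ψ : ι → ℝ) {j : ℕ} (hj : G.card < j) : (gp G ψ).coeff j = 0 := by
  classical
  induction G using Finset.induction_on generalizing j with
  | empty =>
    simp only [gp, Finset.prod_empty, coeff_one]
    rw [Finset.card_empty] at hj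
    rw [if_neg (by omega)]
  | insert g G hg ih =>
    rw [Finset.card_insert_of_notMem hg] at hj
    obtain ⟨i, rfl⟩ : ∃ i, j = i + 1 := ⟨j - 1, by omega⟩
    rw [gp_insert hg, lin_coeff_succ, ih (by omega), ih (by omega), mul_zero, add_zero]

theorem gp_coeff_card (G : Finset ι) (ψ : ι → ℝ) : (gp G ψ).coeff G.card = ∏ g ∈ G, ψ g := by
  classical
  induction G using Finset.induction_on with
  | empty => simp [gp]
  | insert g G hg ih =>
    rw [Finset.card_insert_of_notMem hg, gp_insert hg, lin_coeff_succ, gp_coeff_gt G ψ (Nat.lt_succ_self _),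
      ih, Finset.prod_insert hg, zero_add]

theorem gp_splits (G : Finset ι) (ψ : ι → ℝ) : (gp G ψ).Splits := by
  classical
  unfold gp
  refine Splits.prod fun g _ => ?_
  refine Splits.of_natDegree_le_one ?_
  have h1 : (1 + C (ψ g) * X : ℝ[X]) = C (ψ g) * X + C 1 := by
    rw [C_1, add_comm]
  rw [h1]
  exact natDegree_linear_le

theorem gp_natDegree (G : Finset ι) {ψ : ι → ℝ} (h : ∀ g ∈ G, ψ g ≠ 0) :
    (gp G ψ).natDegree = G.card := by
  refine le_antisymm ?_ ?_
  · rw [natDegree_le_iff_coeff_eq_zero]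
    intro j hj
    exact gp_coeff_gt G ψ hj
  · refine le_natDegree_of_ne_zero ?_
    rw [gp_coeff_card]
    exact Finset.prod_ne_zero_iff.2 h

theorem gp_consecutive (G : Finset ι) {ψ : ι → ℝ} (h : ∀ g ∈ G, ψ g ≠ 0) {j : ℕ} (hj : j + 2 ≤ G.card)
    (h1 : (gp G ψ).coeff (j + 1) = 0) : (gp G ψ).coeff (j + 2) ≠ 0 :=
  consecutive (gp_splits G ψ) (by rw [gp_coeff_zero]; exact one_ne_zero)
    (by rw [gp_natDegree G h]; exact hj) h1

theorem gp_deg {n : ℕ} (G : Finset ι) (ψ : (Fin n → ℝ) → ι → ℝ) (h : ∀ g ∈ G, Deg 1 fun x => ψ x g)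
    (j : ℕ) : Deg j fun x => (gp G (ψ x)).coeff j := by
  classical
  induction G using Finset.induction_on generalizing j with
  | empty =>
    have h1 := (Deg.const (n := n) ((1 : ℝ[X]).coeff j)).mono (Nat.zero_le j)
    simpa [gp] using h1
  | insert g G hg ih =>
    have ih' := ih fun g' hg' => h g' (Finset.mem_insert_of_mem hg')
    cases j with
    | zero =>
      simp only [gp_coeff_zero]
      exact Deg.const 1
    | succ j =>
      simp only [gp_insert hg, lin_coeff_succ]
      refine (ih' (j + 1)).add ?_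
      have h2 := (h g (Finset.mem_insert_self g G)).mul (ih' j)
      rwa [add_comm] at h2

theorem nodes_coeff_zero (T : Finset ℕ) (k : ℕ) : (nodes T k).coeff 0 = 1 := by
  unfold nodes
  rw [coeff_zero_eq_eval_zero, eval_prod]
  refine Finset.prod_eq_one fun t _ => ?_
  simp

/-- Division by a polynomial with nonzero constant coefficient. -/
theorem exists_inv (M : ℝ[X]) (hM : M.coeff 0 ≠ 0) : ∃ h : ℕ → ℝ, ∀ (Q : ℝ[X]) (j : ℕ),
    ∑ x ∈ antidiagonal j, (M * Q).coeff x.1 * h x.2 = Q.coeff j := by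
  refine ⟨fun b => PowerSeries.coeff b ((M : PowerSeries ℝ)⁻¹), fun Q j => ?_⟩
  have h1 : ((M * Q : ℝ[X]) : PowerSeries ℝ) * (M : PowerSeries ℝ)⁻¹ = (Q : PowerSeries ℝ) := by
    have h2 : (M : PowerSeries ℝ) * (M : PowerSeries ℝ)⁻¹ = 1 := by
      refine PowerSeries.mul_inv_cancel _ ?_
      rw [← PowerSeries.coeff_zero_eq_constantCoeff_apply, Polynomial.coeff_coe]
      exact hM
    rw [Polynomial.coe_mul, mul_comm (M : PowerSeries ℝ), mul_assoc, h2, mul_one]
  have h3 := congrArg (PowerSeries.coeff j) h1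
  rw [PowerSeries.coeff_mul, Polynomial.coeff_coe] at h3
  rw [← h3]
  refine Finset.sum_congr rfl fun x _ => ?_
  rw [Polynomial.coeff_coe]

/-- Factors which occur often enough can be split off. -/
theorem split_off [DecidableEq ι] (T : Finset ℕ) (k : ℕ) (G : Finset ι) (ψ : ι → ℝ)
    (h : ∀ t ∈ T, k - t ≤ (G.filter fun g => ψ g = t).card) :
    ∃ G' ⊆ G, G'.card + ∑ t ∈ T, (k - t) = G.card ∧ gp G ψ = nodes T k * gp G' ψ := by
  have h1 : ∀ t : ℕ, ∃ S : Finset ι, t ∈ T → S ⊆ (G.filter fun g => ψ g = t) ∧ S.card = k - t := by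
    intro t
    by_cases ht : t ∈ T
    · obtain ⟨S, hS1, hS2⟩ := Finset.exists_subset_card_eq (h t ht)
      exact ⟨S, fun _ => ⟨hS1, hS2⟩⟩
    · exact ⟨∅, fun h2 => absurd h2 ht⟩
  choose S hS using h1
  have hval : ∀ t ∈ T, ∀ g ∈ S t, g ∈ G ∧ ψ g = t := fun t ht g hg =>
    Finset.mem_filter.1 ((hS t ht).1 hg)
  have hdisj : (T : Set ℕ).PairwiseDisjoint S := by
    intro t ht t' ht' hne
    rw [Function.onFun, Finset.disjoint_left]
    intro g hg hg'
    have e1 := (hval t ht g hg).2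
    have e2 := (hval t' ht' g hg').2
    rw [e1] at e2
    exact hne (by exact_mod_cast e2)
  have hU : T.biUnion S ⊆ G := by
    intro g hg
    obtain ⟨t, ht, hgt⟩ := Finset.mem_biUnion.1 hg
    exact (hval t ht g hgt).1
  refine ⟨G \ T.biUnion S, Finset.sdiff_subset, ?_, ?_⟩
  · rw [Finset.card_sdiff_of_subset hU, Finset.card_biUnion hdisj]
    have h2 : ∑ t ∈ T, (S t).card = ∑ t ∈ T, (k - t) := Finset.sum_congr rfl fun t ht => (hS t ht).2
    have h3 := Finset.card_le_card hU
    rw [Finset.card_biUnion hdisj, h2] at h3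
    rw [h2]
    omega
  · unfold gp nodes
    rw [← Finset.prod_sdiff hU, mul_comm, Finset.prod_biUnion hdisj]
    congr 1
    refine Finset.prod_congr rfl fun t ht => ?_
    rw [← (hS t ht).2, ← Finset.prod_const]
    refine Finset.prod_congr rfl fun g hg => ?_
    rw [(hval t ht g hg).2]

end Pool.Agent.H58CV
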