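import Pool.Agent.Helper58.CV.BigMain
import Pool.Agent.Helper58.CV.Ramsey

/-!
# Covers in which many coordinates occur in at most one member outside a small set
-/

set_option autoImplicit false

open Finset

namespace Pool.Agent.H58CV

variable {n k : ℕ} {ι : Type} [Fintype ι] [DecidableEq ι]

/-- A family covering the nonzero points of a subcube has at least the dimension of the subcube members. -/
theorem cover_card (b : ι → Fin n → ℝ) (W : Finset (Fin n)) (G : Finset ι)
    (h : ∀ x : Fin n → ℝ, (∀ i, x i = 0 ∨ x i = 1) → (∀ i, i ∉ W → x i = 0) → x ≠ 0 → ∃ g ∈ G, lf b g x = 1) :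
    W.card ≤ G.card := by
  refine af (f := fun x => ∏ g ∈ G, (1 - lf b g x)) (Deg.prod _ fun g _ => Big.one_sub_deg g) W ?_ ?_
  · rw [Finset.prod_eq_one fun g _ => by rw [Big.lf_zero, sub_zero]]
    exact one_ne_zero
  · intro x hx hW hx0
    obtain ⟨g, hg, hgx⟩ := h x hx hW hx0
    exact Finset.prod_eq_zero hg (by rw [hgx, sub_self])

theorem lf_eq_zero {b : ι → Fin n → ℝ} {g : ι} {x : Fin n → ℝ} (h : ∀ i, b g i ≠ 0 → x i = 0) : lf b g x = 0 := by
  unfold lf
  refine Finset.sum_eq_zero fun i _ => ?_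
  by_cases hi : b g i = 0
  · rw [hi, zero_mul]
  · rw [h i hi, mul_zero]

/-- The theorem for coefficient vectors. -/
theorem sparse (k : ℕ) (hk : 3 ≤ k) (A M : ℕ) : ∃ n₀ : ℕ, ∀ {n : ℕ} {ι : Type} [Fintype ι] [DecidableEq ι]
    (b : ι → Fin n → ℝ), (∀ x : Fin n → ℝ, (∀ i, x i = 0 ∨ x i = 1) → x ≠ 0 →
      k ≤ (univ.filter fun g => lf b g x = 1).card) →
    ∀ (X : Finset (Fin n)) (S : Finset ι), n₀ ≤ X.card → S.card ≤ A →
      (∀ i ∈ X, ∀ g, g ∉ S → ∀ g', g' ∉ S → b g i ≠ 0 → b g' i ≠ 0 → g = g') →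
      ((S.filter fun g => M < (X.image (b g)).card).card + 3 ≤ k ∨ S.card + 5 ≤ k ^ 2 + k) →
      n + k.choose 2 ≤ Fintype.card ι := by
  classical
  -- the parameters
  set m₁ : ℕ := 2 * A + k + 2 + k * 2 ^ A with hm₁
  set m₂ : ℕ := m₁ + A * 4 ^ m₁ + M + 1 with hm₂
  obtain ⟨M₀, -, hram⟩ := ramsey m₂ A
  refine ⟨A + (A + 1) * (M₀ + 1), ?_⟩
  intro n ι _ _ b hcov X S hX hS huniq hcond
  -- few coordinates occur only in `S`
  set X₀ := X.filter fun i => ∀ g, g ∉ S → b g i = 0 with hX₀
  have hX₀c : X₀.card ≤ S.card := by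
    refine cover_card b X₀ S fun x hx hW hx0 => ?_
    have h1 := hcov x hx hx0
    obtain ⟨g, hg⟩ := Finset.card_pos.1 (show 0 < (univ.filter fun g => lf b g x = 1).card by omega)
    rw [mem_filter] at hg
    refine ⟨g, ?_, hg.2⟩
    by_contra hgS
    have h2 : lf b g x = 0 := lf_eq_zero fun i hi => by
      by_contra hxi
      have hiW : i ∈ X₀ := by
        by_contra hi'
        exact hxi (hW i hi')
      exact hi ((mem_filter.1 hiW).2 g hgS)
    rw [hg.2] at h2
    exact one_ne_zero h2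
  set X₁ := X \ X₀ with hX₁
  have hX₀X : X₀ ⊆ X := Finset.filter_subset _ _
  have hX₁c : X₁.card + X₀.card = X.card := Finset.card_sdiff_add_card_eq_card hX₀X
  have hX₁X : X₁ ⊆ X := Finset.sdiff_subset
  have hX₁big : (A + 1) * (M₀ + 1) ≤ X₁.card := by omega
  have hρ : ∀ i ∈ X₁, ∃ g, g ∉ S ∧ b g i ≠ 0 := by
    intro i hi
    rw [hX₁, mem_sdiff, hX₀, mem_filter] at hi
    have h1 := hi.2
    push Not at h1
    exact h1 hi.1
  obtain ⟨i₀, hi₀⟩ := Finset.card_pos.1 (show 0 < X₁.card by nlinarith)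
  obtain ⟨g₀, -, -⟩ := hρ i₀ hi₀
  have : Nonempty ι := ⟨g₀⟩
  choose! ρ hρS hρb using hρ
  -- the fibres are small
  have hfib : ∀ g ∈ X₁.image ρ, (X₁.filter fun i => ρ i = g).card ≤ A + 1 := by
    intro g hg
    obtain ⟨i₁, hi₁, hi₁g⟩ := mem_image.1 hg
    have hgS : g ∉ S := by rw [← hi₁g]; exact hρS i₁ hi₁
    have h1 : (X₁.filter fun i => ρ i = g).card ≤ (insert g S).card := by
      refine cover_card b _ (insert g S) fun x hx hW hx0 => ?_
      have h1 := hcov x hx hx0
      obtain ⟨h, hh⟩ := Finset.card_pos.1 (show 0 < (univ.filter fun g => lf b g x = 1).card by omega)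
      rw [mem_filter] at hh
      refine ⟨h, ?_, hh.2⟩
      by_contra hhS
      rw [mem_insert, not_or] at hhS
      have h2 : lf b h x = 0 := lf_eq_zero fun i hi => by
        by_contra hxi
        have hiW : i ∈ X₁.filter fun i => ρ i = g := by
          by_contra hi'
          exact hxi (hW i hi')
        rw [mem_filter] at hiW
        apply hhS.1
        refine huniq i (hX₁X hiW.1) h hhS.2 g hgS hi ?_
        rw [← hiW.2]
        exact hρb i hiW.1
      rw [hh.2] at h2
      exact one_ne_zero h2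
    have h2 := Finset.card_insert_le g S
    omega
  have himg := Finset.card_le_mul_card_image X₁ (A + 1) hfib
  obtain ⟨J₂, hJ₂, hJ₂i, hJ₂c⟩ := exists_transversal X₁ ρ
  have hJ₂big : M₀ ≤ J₂.card := by
    rw [hJ₂c]
    by_contra hcon
    push Not at hcon
    have h1 : (A + 1) * (X₁.image ρ).card ≤ (A + 1) * M₀ := Nat.mul_le_mul_left _ hcon.le
    have h2 : (A + 1) * (M₀ + 1) = (A + 1) * M₀ + (A + 1) := by ring
    omega
  obtain ⟨J₃, hJ₃, hJ₃c, hJ₃p⟩ := hram S b J₂ hS hJ₂big
  set D := S.filter fun g => Set.InjOn (b g) J₃ with hD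
  have hDS : D ⊆ S := Finset.filter_subset _ _
  have hDc : D.card ≤ A := (Finset.card_le_card hDS).trans hS
  have hD4 : D.card * 4 ^ m₁ ≤ A * 4 ^ m₁ := Nat.mul_le_mul_right _ hDc
  obtain ⟨J₄, hJ₄, hJ₄c, hJ₄d⟩ := diss_ex D b J₃ (fun g hg => (mem_filter.1 hg).2) m₁ (by omega)
  have hJ₄1 : J₄ ⊆ X₁ := (hJ₄.trans hJ₃).trans hJ₂
  have hJ₄i : Set.InjOn ρ J₄ := hJ₂i.mono (by exact_mod_cast hJ₄.trans hJ₃)
  have hconst : ∀ g ∈ S, g ∉ D → ∀ i ∈ J₄, ∀ j ∈ J₄, b g i = b g j := by
    intro g hg hgD i hi j hj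
    rcases hJ₃p g hg with ⟨c, hc⟩ | h
    · rw [hc i (hJ₄ hi), hc j (hJ₄ hj)]
    · exact absurd (mem_filter.2 ⟨hg, h⟩) hgD
  -- members outside `S` which depend on `J₄` are private members
  have hpriv : ∀ g, g ∉ S → ∀ i ∈ J₄, b g i ≠ 0 → g = ρ i := fun g hg i hi hgi =>
    huniq i (hX₁X (hJ₄1 hi)) g hg (ρ i) (hρS i (hJ₄1 hi)) hgi (hρb i (hJ₄1 hi))
  obtain ⟨j₀, hj₀⟩ := Finset.card_pos.1 (show 0 < J₄.card by omega)
  have himS : ∀ g ∈ J₄.image ρ, g ∉ S := by
    intro g hg
    obtain ⟨i, hi, rfl⟩ := mem_image.1 hg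
    exact hρS i (hJ₄1 hi)
  let P : Big n k ι :=
    { b := b
      cov := hcov
      J := J₄
      R := ρ
      inj := hJ₄i
      R1 := fun j hj => hρb j (hJ₄1 hj)
      R2 := by
        intro j hj i hi hij
        by_contra h
        exact hij (hJ₄i hi hj (hpriv (ρ j) (hρS j (hJ₄1 hj)) i hi h).symm)
      E := univ.filter fun g => g ∉ J₄.image ρ ∧ g ∉ D ∧ ∀ i ∈ J₄, b g i = 0
      C := univ.filter fun g => g ∉ J₄.image ρ ∧ g ∉ D ∧ ¬ ∀ i ∈ J₄, b g i = 0
      D := D
      part := by
        intro g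
        simp only [mem_filter, mem_univ, true_and]
        tauto
      disjRE := by
        rw [Finset.disjoint_left]
        intro g hg hg'
        exact (mem_filter.1 hg').2.1 hg
      disjRC := by
        rw [Finset.disjoint_left]
        intro g hg hg'
        exact (mem_filter.1 hg').2.1 hg
      disjRD := by
        rw [Finset.disjoint_left]
        intro g hg hg'
        exact himS g hg (hDS hg')
      disjEC := by
        rw [Finset.disjoint_left]
        intro g hg hg'
        exact (mem_filter.1 hg').2.2.2 (mem_filter.1 hg).2.2.2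
      disjED := by
        rw [Finset.disjoint_left]
        intro g hg hg'
        exact (mem_filter.1 hg).2.2.1 hg'
      disjCD := by
        rw [Finset.disjoint_left]
        intro g hg hg'
        exact (mem_filter.1 hg).2.2.1 hg'
      α := fun g => b g j₀
      hα := by
        intro g hg i hi
        have h1 := (mem_filter.1 hg).2
        by_cases hgS : g ∈ S
        · exact hconst g hgS h1.2.1 i hi j₀ hj₀
        · exfalso
          apply h1.2.2
          intro i hi
          by_contra h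
          exact h1.1 (mem_image.2 ⟨i, hi, (hpriv g hgS i hi h).symm⟩)
      hα0 := by
        intro g hg h0
        have h1 := (mem_filter.1 hg).2
        by_cases hgS : g ∈ S
        · apply h1.2.2
          intro i hi
          rw [hconst g hgS h1.2.1 i hi j₀ hj₀]
          exact h0
        · apply h1.2.2
          intro i hi
          by_contra h
          exact h1.1 (mem_image.2 ⟨i, hi, (hpriv g hgS i hi h).symm⟩)
      hE := fun g hg i hi => (mem_filter.1 hg).2.2.2 i hi
      hD := fun g hg σ hσ T hT T' hT' h => (hJ₄d g hg).signed σ hσ hT hT' h }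
  have hCS : P.C ⊆ S \ D := by
    intro g hg
    have h1 := (mem_filter.1 hg).2
    rw [mem_sdiff]
    refine ⟨?_, h1.2.1⟩
    by_contra hgS
    apply h1.2.2
    intro i hi
    by_contra h
    exact h1.1 (mem_image.2 ⟨i, hi, (hpriv g hgS i hi h).symm⟩)
  have hCD : P.C.card + D.card ≤ S.card := by
    have h1 := Finset.card_le_card hCS
    have h2 := Finset.card_sdiff_add_card_eq_card hDS
    omega
  have h2A : k * 2 ^ D.card ≤ k * 2 ^ A := Nat.mul_le_mul_left _ (Nat.pow_le_pow_right (by norm_num) hDc)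
  refine P.main hk (show 2 * D.card + k + 1 < J₄.card by omega) (show k * 2 ^ D.card < J₄.card by omega) ?_
  show D.card + 3 ≤ k ∨ P.C.card + D.card + 5 ≤ k ^ 2 + k
  rcases hcond with h | h
  · left
    refine le_trans (Nat.add_le_add_right (Finset.card_le_card fun g hg => ?_) 3) h
    rw [mem_filter]
    refine ⟨hDS hg, ?_⟩
    have h1 : (J₃.image (b g)).card = J₃.card := Finset.card_image_of_injOn (mem_filter.1 hg).2
    have h3 : J₃.image (b g) ⊆ X.image (b g) :=
      Finset.image_subset_image (((hJ₃.trans hJ₂)).trans hX₁X)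
    have h4 := Finset.card_le_card h3
    omega
  · right
    omega

end Pool.Agent.H58CV
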